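import Pool.Agent.H316.EM.Stm

/-!
# MP_e2f787 (S03350): statements of the lemmas, second part: from a metabelian group to a datum
-/

set_option autoImplicit false

namespace Pool.Agent.H316.EM

/-- **FGN.** The derived subgroup of a finitely generated group is the normal closure of a finite set, with all
conjugates in the closure (the commutators of the generators and their inverses). Library: `comm_le` in
`Pool/Graph/R_pool_sql_team_seeded_63374d34/N600/G3/Red.lean`. -/
def S_FGN : Prop := ∀ (M : Type) [Group M] [Group.FG M], ∃ S : Finset M,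
  commutator M = Subgroup.closure {x : M | ∃ m : M, ∃ s ∈ S, x = m * s * m⁻¹}

/-- **FI1.** The subgroup of `AA` acting trivially on the abelianization of `M` has finite index.

Proof. From FINAUT with `L = Abelianization M`, `A = Multiplicative AA`. -/
def S_FI1 : Prop := S_FINAUT → ∀ (M : Type) [Group M] [Group.FG M] (D : Act M) (A₁ : Submodule (ZMod 2) KK),
  (∀ a, a ∈ A₁ ↔ a ∈ AA ∧ ∀ x, D.ia a x * x⁻¹ ∈ commutator M) → Fi A₁ AA

/-- **DER.** The case that a subgroup of finite index of `AA` acts trivially on the abelianization and on the derived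
subgroup `N` of the metabelian group `M`.

Proof. Let `W` be the group of derivations `δ : M → N` (written additively),
`δ (x y) = δ x + x • δ y` where `x • n = x n x⁻¹` (an additive subgroup of the group of functions `M → Additive N`). The group
`Λ = Abelianization M` acts on `N` by conjugation (`N` is commutative), and on `W` by `(l δ)(x) = l (δ x)`: this is again a derivation
since `Λ` is commutative. Evaluation at a finite generating set `S` of `M` is an injective `Λ`-equivariant
homomorphism `W → N ^ S`; `N` is finitely generated over `Λ` (FGN), so `N ^ S` and its `Λ`-subgroup `W` are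
finitely generated over `Λ` (Noetherian: `Pool.Agent.Y45.HM.FGS.noe` with `J = ℤ`, or modules over `MonoidAlgebra ℤ Λ`). For
`φ ∈ Aut M` put `(φ δ)(x) = φ (δ (φ⁻¹ x))`; it is a derivation, and `φ (l δ) = φ̄(l) (φ δ)`. Put
`α a (x) = (ia a x) x⁻¹ ∈ N` for `a ∈ A₀`: a derivation, because
`a(xy)(xy)⁻¹ = a(x) a(y) y⁻¹ x⁻¹ = (a(x) x⁻¹) x (a(y) y⁻¹) x⁻¹`; `α (a + a') = α a + α a'` since
`a a'(x) x⁻¹ = a(a'(x) x⁻¹) a(x) x⁻¹` and `a` is trivial on `N`; `α` is injective on `A₀`, so its image is infinite
(`A₀` has finite index in the infinite group `AA`); `α (mB b a) = β b (α a)` by `hβ`, similarly for `t`. `A₀` is stable under `B`, `tA`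
because `N` is characteristic. Then apply MK. -/
def S_DER : Prop := S_MK → S_FGN → ∀ (M : Type) [Group M] [Group.FG M], derivedSeries M 2 = ⊥ →
  ∀ (D : Act M) (A₀ : Submodule (ZMod 2) KK),
  (∀ a, a ∈ A₀ ↔ a ∈ AA ∧ (∀ x, D.ia a x * x⁻¹ ∈ commutator M) ∧ ∀ x ∈ commutator M, D.ia a x = x) →
  Fi A₀ AA → ∃ (V : Type) (_ : AddCommGroup V) (_ : Module (ZMod 2) V), Nonempty (Dat 1 V)

/-- **NILC.** A finitely generated module `N` over `Λ` on which `A₁` (of finite index in `AA`) acts `Λ`-linearly, with a kernel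
of infinite index, gives a datum.

Proof. Let `E` be the subring of `Module.End ℤ N` generated by all `c l` (`l ∈ Λ`) and all `u a` (`a ∈ A₁`); it is
commutative. Let `S` be a finite set generating `N` over `Λ`. The map `E → N ^ S`, `e ↦ (e s)`, is injective
(`e` commutes with `Λ`) and commutes with the action of `Λ` (on `E` by multiplication with `c l`), and `N ^ S` is a
Noetherian `Λ`-module (see DER), so the `Λ`-stable subgroups of `E` satisfy the ascending chain condition; in particular
`E` is a Noetherian ring and it is finitely generated over `Λ`. Apply NIL to `E`, `A = Multiplicative A₁`,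
`u` (its kernel has infinite index in `A₁`): `j ≥ 1` with `A^(j) = {a ∈ A₁ : u a - 1 ∈ I ^ j}` of finite and
`A^(j+1)` of infinite index, `I` = nilradical of `E`. Put `W = E ⧸ I ^ (j+1)`,
`ρ l` = multiplication with `c l`, `A₀ = A^(j)`, `α a = u a - 1` modulo `I ^ (j+1)`. It is additive on
`A₀` because `u a u a' - 1 = (u a - 1) + (u a' - 1) + (u a - 1)(u a' - 1)` and `2 j ≥ j + 1`. Conjugation with `β b` and with `t`
are ring automorphisms of `E`, so they preserve `I` and induce automorphisms of `W` with the required properties, and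
`A₀` is stable. The image of `α` is infinite as `A^(j+1)` has infinite index. Then apply MK. -/
def S_NILC : Prop := S_MK → S_NIL → ∀ (N Λ : Type) [AddCommGroup N] [CommGroup Λ] [Group.FG Λ]
  (c : Λ →* (N ≃ₗ[ℤ] N)) (β : B →* (N ≃ₗ[ℤ] N)) (t : N ≃ₗ[ℤ] N),
  (∀ b, t * β b * t⁻¹ = β (th b)) → (∀ b l, ∃ l', β b * c l * (β b)⁻¹ = c l') →
  (∀ l, ∃ l', t * c l * t⁻¹ = c l') → (∀ l, ∃ l', t⁻¹ * c l * t = c l') →
  (∃ S : Finset N, AddSubgroup.closure {x : N | ∃ l, ∃ s ∈ S, x = c l s} = ⊤) →
  ∀ (A₁ A₂ : Submodule (ZMod 2) KK) (u : KK → (N ≃ₗ[ℤ] N)), A₁ ≤ AA → Fi A₁ AA →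
  (∀ b, ∀ a ∈ A₁, mB b a ∈ A₁) → (∀ a, a ∈ A₁ ↔ tA a ∈ A₁) →
  (∀ a ∈ A₁, ∀ a' ∈ A₁, u (a + a') = u a * u a') → (∀ a ∈ A₁, ∀ l, u a * c l = c l * u a) →
  (∀ b, ∀ a ∈ A₁, β b * u a * (β b)⁻¹ = u (mB b a)) → (∀ a ∈ A₁, t * u a * t⁻¹ = u (tA a)) →
  (∀ a, a ∈ A₂ ↔ a ∈ A₁ ∧ u a = 1) → ¬ Fi A₂ AA →
  ∃ (V : Type) (_ : AddCommGroup V) (_ : Module (ZMod 2) V), Nonempty (Dat 1 V)

/-- **CNJ.** Application of NILC to the derived subgroup of `M`.

Proof. `N = Additive (commutator M)` (commutative as `derivedSeries M 2 = ⊥`), `Λ = Abelianization M` acting by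
conjugation, finitely generated over `Λ` by FGN; `u a`, `β b`, `t` the restrictions of the automorphisms to the (characteristic)
subgroup `commutator M`. For `a ∈ A₁`, `a(m x m⁻¹) = a(m) a(x) a(m)⁻¹ = m a(x) m⁻¹` for `x ∈ N`, because
`a(m) ∈ N m` and `N` is commutative. -/
def S_CNJ : Prop := S_NILC → S_MK → S_NIL → S_FGN → ∀ (M : Type) [Group M] [Group.FG M],
  derivedSeries M 2 = ⊥ → ∀ (D : Act M) (A₁ A₂ : Submodule (ZMod 2) KK),
  (∀ a, a ∈ A₁ ↔ a ∈ AA ∧ ∀ x, D.ia a x * x⁻¹ ∈ commutator M) → Fi A₁ AA →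
  (∀ a, a ∈ A₂ ↔ a ∈ A₁ ∧ ∀ x ∈ commutator M, D.ia a x = x) → ¬ Fi A₂ AA →
  ∃ (V : Type) (_ : AddCommGroup V) (_ : Module (ZMod 2) V), Nonempty (Dat 1 V)

/-- **AINF.** `AA` is infinite. -/
def S_AINF : Prop := (AA : Set KK).Infinite

/-- from a metabelian group to a datum -/
def S_PART1 : Prop := ∀ (M : Type) [Group M] [Group.FG M], derivedSeries M 2 = ⊥ → Act M →
  ∃ (V : Type) (_ : AddCommGroup V) (_ : Module (ZMod 2) V), Nonempty (Dat 1 V)

/-- **RED1.** Reduction to just infinite data.

Proof. Let `X` be maximal among the submodules with `D.Stb j X` for some `j > 0` and `¬ Fi (D.pre X) AA` (`⊥` is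
one, since the image of `α` is infinite; maximal elements exist by ACC) and take the quotient datum (QUO) by `X`. A nonzero
submodule of `V ⧸ X` which is stable for `j'` gives a submodule of `V` stable for `j * j'`, larger than `X`. -/
def S_RED1 : Prop := S_ACC → S_QUO → ∀ (k : ℕ) (V : Type) [AddCommGroup V] [Module (ZMod 2) V],
  0 < k → Dat k V → ∃ (k' : ℕ) (V' : Type) (_ : AddCommGroup V') (_ : Module (ZMod 2) V')
    (D' : Dat k' V'), 0 < k' ∧ D'.JI

/-- **RED2.** Reduction to data with `LT`.

Proof. For `Y ≠ ⊥` with `D.Stb j Y` for some `j > 0` let `L_Y` = the subgroup of the `l ∈ L` such that `l ^ n` is trivial on `Y`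
for some `n > 0`. As `L` is a finitely generated commutative group, its subgroups satisfy the ascending chain condition; choose `Y` with
`L_Y` maximal, and restrict (SUB; `Fi (D.pre Y) AA` by `JI`). `JI` is inherited (submodules of `Y` stable for `j'` are
submodules of `V` stable for `j * j'`) and `LT` holds by the maximality: for `Y' ≤ Y`, `L_{Y'} ⊇ L_Y` so they are equal.
(If `V = 0` there is nothing to do: but `V` is infinite.) -/
def S_RED2 : Prop := S_ACC → S_SUB → ∀ (k : ℕ) (V : Type) [AddCommGroup V] [Module (ZMod 2) V]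
  (D : Dat k V), 0 < k → D.JI → ∃ (k' : ℕ) (V' : Type) (_ : AddCommGroup V') (_ : Module (ZMod 2) V')
    (D' : Dat k' V'), 0 < k' ∧ D'.JI ∧ D'.LT

/-- **RED3.** Reduction to CORE.

Proof. 1. `L = D.L` is infinite: otherwise `V` is spanned by a finite set. 2. `B` and `t` act on the commutative group `L` by
conjugation; UNI gives `N > 0`, `c`; FIX applied to `b ↦` conjugation with `β (b ^ N)` gives `z ∈ L` of infinite order commuting
with all `β (b ^ N)`. 3. `Z = {z ∈ L : z` commutes with all `β (b ^ N)}` is a finitely generated group normalized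
by `β B` and `t`. 4. `E = MonoidAlgebra (ZMod 2) Z` acts on `V`; `φ b` = the automorphism of `E` induced by conjugation with `β b`,
`φ (b ^ N) = 1`; `R₁` = the subalgebra of invariants, see ART. Elements of `R₁` commute with `L` and `β b` on `V`, and
`t (r v) = σ(r) t v` with `σ` induced by conjugation with `t` (it preserves `R₁` since `φ b ∘ σ = σ ∘ φ (th⁻ᵏ b)`).
5. ANN for `R₁`, `V`, `Γ = L` (with ACC) gives `P` and `j`. 6. `Y = {v : P v = 0}` satisfies `D.Stb j Y`, `Y ≠ ⊥`, so `Fi (D.pre Y) AA` by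
`JI`; let `D'` be the restriction to `Y` (SUB), `R = R₁ ⧸ P`, a domain acting on `Y`, and `r v = 0` implies `r = 0` or
`v = 0`. 7. Let `m` be a maximal ideal of `R`, `m₁` its preimage in `R₁`. ORB for `σ ^ j` gives `i > 0` with
`(σ ^ j) ^ i m₁ = m₁`, so `mv Y m` is stable for `D'` and `i`, and its image in `V` is stable for `D` and `j * i`. If it is not `⊥` then
`Fi (D'.pre (mv Y m)) AA` by `JI`. If it is `⊥` then `m = ⊥`, so `R` is a field, finitely generated over `𝔽₂`, hence finite. The image
of `E` in `End Y` is integral over the image of `R₁`, which is finite, and finitely generated, hence finite. So `z ^ n = 1` on `Y` for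
some `n > 0` and by `LT` the element `z` has finite order: contradiction. So CORE applies to `D'` and `R`. -/
def S_RED3 : Prop := S_CORE → S_ACC → S_SUB → S_UNI → S_FIX → S_ART → S_ANN → S_ORB →
  ∀ (k : ℕ) (V : Type) [AddCommGroup V] [Module (ZMod 2) V] (D : Dat k V), 0 < k → D.JI → D.LT → False

/-- no data -/
def S_NODAT : Prop := ∀ (k : ℕ) (V : Type) [AddCommGroup V] [Module (ZMod 2) V], 0 < k → Dat k V → False

end Pool.Agent.H316.EM
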