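import Pool.Agent.H316.EM.Stm2

/-!
# MP_e2f787 (S03350): assembly
-/

set_option autoImplicit false

namespace Pool.Agent.H316.EM

theorem part1 (hFINAUT : S_FINAUT) (hNIL : S_NIL) (hMK : S_MK) (hFGN : S_FGN) (hFI1 : S_FI1)
    (hDER : S_DER) (hNILC : S_NILC) (hCNJ : S_CNJ) : S_PART1 := by
  intro M _ _ hM D
  let A₁ : Submodule (ZMod 2) KK :=
    { carrier := {a | a ∈ AA ∧ ∀ x, D.ia a x * x⁻¹ ∈ commutator M}
      zero_mem' := by
        refine ⟨AA.zero_mem, fun x => ?_⟩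
        have h := D.iadd 0 AA.zero_mem 0 AA.zero_mem
        rw [add_zero] at h
        have h1 : D.ia 0 = 1 := by
          have := mul_right_cancel (h.symm.trans (one_mul (D.ia 0)).symm)
          exact this
        rw [h1]
        simp
      add_mem' := by
        rintro a b ⟨ha, ha'⟩ ⟨hb, hb'⟩
        refine ⟨AA.add_mem ha hb, fun x => ?_⟩
        rw [D.iadd a ha b hb, MulAut.mul_apply]
        have := (commutator M).mul_mem (ha' (D.ia b x)) (hb' x)
        simpa [mul_assoc] using this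
      smul_mem' := by
        rintro c a ⟨ha, ha'⟩
        rcases (by decide : ∀ c : ZMod 2, c = 0 ∨ c = 1) c with rfl | rfl
        · rw [zero_smul]
          refine ⟨AA.zero_mem, fun x => ?_⟩
          have h := D.iadd 0 AA.zero_mem 0 AA.zero_mem
          rw [add_zero] at h
          have h1 : D.ia 0 = 1 := by
            have := mul_right_cancel (h.symm.trans (one_mul (D.ia 0)).symm)
            exact this
          rw [h1]
          simp
        · rw [one_smul]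
          exact ⟨ha, ha'⟩ }
  have h0 : D.ia 0 = 1 := by
    have h := D.iadd 0 AA.zero_mem 0 AA.zero_mem
    rw [add_zero] at h
    exact mul_right_cancel (h.symm.trans (one_mul (D.ia 0)).symm)
  let A₂ : Submodule (ZMod 2) KK :=
    { carrier := {a | a ∈ A₁ ∧ ∀ x ∈ commutator M, D.ia a x = x}
      zero_mem' := ⟨A₁.zero_mem, fun x _ => by rw [h0]; rfl⟩
      add_mem' := by
        rintro a b ⟨ha, ha'⟩ ⟨hb, hb'⟩
        refine ⟨A₁.add_mem ha hb, fun x hx => ?_⟩
        rw [D.iadd a ha.1 b hb.1, MulAut.mul_apply, hb' x hx, ha' x hx]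
      smul_mem' := by
        rintro c a ⟨ha, ha'⟩
        rcases (by decide : ∀ c : ZMod 2, c = 0 ∨ c = 1) c with rfl | rfl
        · rw [zero_smul]
          exact ⟨A₁.zero_mem, fun x _ => by rw [h0]; rfl⟩
        · rw [one_smul]
          exact ⟨ha, ha'⟩ }
  have hA₁ : Fi A₁ AA := hFI1 hFINAUT M D A₁ (fun a => Iff.rfl)
  by_cases h : Fi A₂ AA
  · exact hDER hMK hFGN M hM D A₂ (fun a => ⟨fun h => ⟨h.1.1, h.1.2, h.2⟩, fun h => ⟨⟨h.1, h.2.1⟩, h.2.2⟩⟩) h
  · exact hCNJ hNILC hMK hNIL hFGN M hM D A₁ A₂ (fun a => Iff.rfl) hA₁ (fun a => Iff.rfl) h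

theorem nodat (hACC : S_ACC) (hSUB : S_SUB) (hQUO : S_QUO) (hRED1 : S_RED1) (hRED2 : S_RED2)
    (hRED3 : S_RED3) (hCORE : S_CORE) (hUNI : S_UNI) (hFIX : S_FIX) (hART : S_ART) (hANN : S_ANN)
    (hORB : S_ORB) : S_NODAT := by
  intro k V _ _ hk D
  obtain ⟨k', V', _, _, D', hk', hJ⟩ := hRED1 hACC hQUO k V hk D
  obtain ⟨k'', V'', _, _, D'', hk'', hJ', hL⟩ := hRED2 hACC hSUB k' V' D' hk' hJ
  exact hRED3 hCORE hACC hSUB hUNI hFIX hART hANN hORB k'' V'' D'' hk'' hJ' hL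

theorem main (hP : S_PART1) (hN : S_NODAT) (hG : S_GRP) :
    ¬ (∀ (G : Type) [Group G] [Group.FG G] (A : Subgroup G) [A.Normal],
      (∀ x ∈ A, ∀ y ∈ A, x * y = y * x) →
      (∀ H : Subgroup (G ⧸ A), H.FG) →
      (∃ K : Subgroup (G ⧸ A), K.index ≠ 0 ∧ IsSolvable K) →
      ∃ (M : Type) (_ : Group M), Group.FG M ∧ derivedSeries M 2 = ⊥ ∧
        ∃ f : G →* MulAut M, Function.Injective f) := by
  apply hG
  intro M _ _ hM D
  obtain ⟨V, _, _, ⟨D'⟩⟩ := hP M hM D
  exact hN 1 V one_pos D'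

end Pool.Agent.H316.EM
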