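import Pool.Agent.H316.EM.Stm2

/-!
# MP_e2f787 (S03350): basic lemmas on data, the unipotent subgroup
-/

set_option autoImplicit false

namespace Pool.Agent.H316.EM

namespace Dat
variable {k : ℕ} {V : Type} [AddCommGroup V] [Module (ZMod 2) V]

theorem Lβ' (D : Dat k V) (b : B) (l : Au V) (hl : l ∈ D.L) : (D.β b)⁻¹ * l * D.β b ∈ D.L := by
  have := D.Lβ b⁻¹ l hl
  rwa [map_inv, inv_inv] at this

theorem Lt' (D : Dat k V) (l : Au V) (hl : l ∈ D.L) : D.t⁻¹ * l * D.t ∈ D.L := by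
  rw [D.Lt]
  have : D.t * (D.t⁻¹ * l * D.t) * D.t⁻¹ = l := by group
  rwa [this]

/-- `D.L` as a commutative group -/
abbrev cg (D : Dat k V) : CommGroup D.L :=
  { (inferInstance : Group D.L) with
    mul_comm := fun x y => Subtype.ext (D.Lcomm x.1 x.2 y.1 y.2) }

/-- conjugation by an element normalizing `L` -/
def cj (L : Subgroup (Au V)) (γ : Au V) (h1 : ∀ l ∈ L, γ * l * γ⁻¹ ∈ L)
    (h2 : ∀ l ∈ L, γ⁻¹ * l * γ ∈ L) : MulAut L where
  toFun l := ⟨γ * l.1 * γ⁻¹, h1 l.1 l.2⟩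
  invFun l := ⟨γ⁻¹ * l.1 * γ, h2 l.1 l.2⟩
  left_inv l := Subtype.ext (by show γ⁻¹ * (γ * l.1 * γ⁻¹) * γ = l.1; group)
  right_inv l := Subtype.ext (by show γ * (γ⁻¹ * l.1 * γ) * γ⁻¹ = l.1; group)
  map_mul' a b := Subtype.ext (by
    show γ * (a.1 * b.1) * γ⁻¹ = (γ * a.1 * γ⁻¹) * (γ * b.1 * γ⁻¹)
    group)

/-- the action of `B` on `L` by conjugation -/
def cβ (D : Dat k V) : B →* MulAut D.L where
  toFun b := cj D.L (D.β b) (fun l hl => D.Lβ b l hl) (fun l hl => D.Lβ' b l hl)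
  map_one' := by
    ext l x
    show (D.β 1 * l.1 * (D.β 1)⁻¹) x = l.1 x
    simp
  map_mul' a b := by
    ext l x
    show (D.β (a * b) * l.1 * (D.β (a * b))⁻¹) x
      = (D.β a * (D.β b * l.1 * (D.β b)⁻¹) * (D.β a)⁻¹) x
    congr 1
    rw [map_mul]
    group

/-- the action of `t` on `L` by conjugation -/
def ct (D : Dat k V) : MulAut D.L :=
  cj D.L D.t (fun l hl => (D.Lt l).1 hl) (fun l hl => D.Lt' l hl)

theorem uni (hUNI : S_UNI) (D : Dat k V) (hk : 0 < k) : ∃ N c : ℕ, 0 < N ∧ ∀ (b : B), ∀ l ∈ D.L,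
    (fun x => D.β (b ^ N) * x * (D.β (b ^ N))⁻¹ * x⁻¹)^[c] l = 1 := by
  letI : CommGroup D.L := D.cg
  haveI : Group.FG D.L := (Group.fg_iff_subgroup_fg D.L).2 D.Lfg
  have h0 : ∀ b, D.ct * D.cβ b * D.ct⁻¹ = D.cβ ((th ^ k) b) := by
    intro b
    ext1 l
    apply Subtype.ext
    show D.t * (D.β b * (D.t⁻¹ * l.1 * D.t) * (D.β b)⁻¹) * D.t⁻¹
      = D.β ((th ^ k) b) * l.1 * (D.β ((th ^ k) b))⁻¹
    rw [← D.tβ b]
    simp only [mul_inv_rev, inv_inv, mul_assoc]
  obtain ⟨N, c, hN, h⟩ := hUNI D.L D.cβ D.ct k hk h0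
  refine ⟨N, c, hN, fun b l hl => ?_⟩
  have h1 := h b ⟨l, hl⟩
  have key : ∀ (n : ℕ) (l : D.L),
      ((((fun x => D.cβ (b ^ N) x / x)^[n] l : D.L)) : Au V)
        = (fun x => D.β (b ^ N) * x * (D.β (b ^ N))⁻¹ * x⁻¹)^[n] l.1 := by
    intro n
    induction n with
    | zero => intro l; rfl
    | succ n ih =>
      intro l
      rw [Function.iterate_succ_apply, Function.iterate_succ_apply, ih]
      congr 1
  have h2 := key c ⟨l, hl⟩
  rw [h1] at h2
  exact h2.symm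

end Dat

/-- spans of finite sets killed by an ideal with finite quotient are finite -/
theorem finite_span {R M : Type} [CommRing R] [AddCommGroup M] [Module R M] (m : Ideal R)
    [Finite (R ⧸ m)] (X : Set M) (hX : X.Finite) (h : ∀ r ∈ m, ∀ x ∈ X, r • x = 0) :
    Finite (Submodule.span R X) := by
  classical
  let out : R ⧸ m → R := Quotient.out
  have hout : ∀ z, Ideal.Quotient.mk m (out z) = z := fun z => Quotient.out_eq _
  haveI : Finite X := hX
  haveI : Fintype X := Fintype.ofFinite X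
  let f : (X → R ⧸ m) → Submodule.span R X := fun g =>
    ⟨∑ x : X, (out (g x)) • x.1,
      Submodule.sum_mem _ fun x _ => Submodule.smul_mem _ _ (Submodule.subset_span x.2)⟩
  apply Finite.of_surjective f
  rintro ⟨y, hy⟩
  rw [Submodule.mem_span_set'] at hy
  obtain ⟨n, c, g, rfl⟩ := hy
  refine ⟨fun x => ∑ i : Fin n, if g i = x then Ideal.Quotient.mk m (c i) else 0, Subtype.ext ?_⟩
  show ∑ x : X, out (∑ i : Fin n, if g i = x then Ideal.Quotient.mk m (c i) else 0) • x.1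
    = ∑ i, c i • (g i : M)
  have h1 : ∀ x : X, out (∑ i : Fin n, if g i = x then Ideal.Quotient.mk m (c i) else 0) • x.1
      = (∑ i : Fin n, if g i = x then c i else 0) • x.1 := by
    intro x
    rw [← sub_eq_zero, ← sub_smul]
    apply h _ _ _ x.2
    rw [← Ideal.Quotient.eq_zero_iff_mem, map_sub, sub_eq_zero]
    have : Ideal.Quotient.mk m (out (∑ i : Fin n, if g i = x then Ideal.Quotient.mk m (c i) else 0))
        = ∑ i : Fin n, if g i = x then Ideal.Quotient.mk m (c i) else 0 := hout _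
    rw [this, map_sum]
    refine Finset.sum_congr rfl fun i _ => ?_
    split_ifs <;> simp
  rw [Finset.sum_congr rfl fun x _ => h1 x]
  simp_rw [Finset.sum_smul]
  rw [Finset.sum_comm]
  refine Finset.sum_congr rfl fun i _ => ?_
  rw [Finset.sum_eq_single (g i)]
  · simp
  · intro x _ hx
    rw [if_neg (Ne.symm hx), zero_smul]
  · intro h; exact absurd (Finset.mem_univ _) h

end Pool.Agent.H316.EM
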