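import Pool.Agent.H316.EM.Core1

/-!
# MP_e2f787 (S03350): CORE, elementary lemmas
-/

set_option autoImplicit false

namespace Pool.Agent.H316.EM

/-- `mv V m` is `m V` -/
theorem mem_mv {R : Type} (V : Type) [CommRing R] [AddCommGroup V] [Module (ZMod 2) V] [Module R V]
    (m : Ideal R) (x : V) : x ∈ mv V m ↔ x ∈ m • (⊤ : Submodule R V) := by
  constructor
  · intro h
    induction h using Submodule.span_induction with
    | mem x hx =>
      obtain ⟨r, hr, v, rfl⟩ := hx
      exact Submodule.smul_mem_smul hr trivial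
    | zero => exact zero_mem _
    | add x y _ _ hx hy => exact add_mem hx hy
    | smul c x _ hx =>
      rcases (by decide : ∀ c : ZMod 2, c = 0 ∨ c = 1) c with rfl | rfl
      · rw [zero_smul]; exact zero_mem _
      · rwa [one_smul]
  · intro h
    refine Submodule.smul_induction_on h (fun r hr v _ => ?_) (fun x y hx hy => add_mem hx hy)
    exact Submodule.subset_span ⟨r, hr, v, rfl⟩

/-- a surjectivity lemma -/
theorem lin_surj {R M : Type} [CommRing R] [AddCommGroup M] [Module R M] (g : M →ₗ[R] M) (X : Set M)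
    (hfin : Finite (Submodule.span R X)) (h1 : ∀ x ∈ X, g x ∈ X) (h2 : ∀ x ∈ X, ∃ x' ∈ X, g x' = x)
    (Q : Submodule R M) (hQ : Q ≤ Submodule.span R X) (hgQ : ∀ x ∈ Q, g x ∈ Q) :
    ∀ x ∈ Q, ∃ x' ∈ Q, g x' = x := by
  have h3 : ∀ x ∈ Submodule.span R X, g x ∈ Submodule.span R X := by
    intro x hx
    have : Submodule.span R X ≤ (Submodule.span R X).comap g :=
      Submodule.span_le.2 fun x hx => Submodule.subset_span (h1 x hx)
    exact this hx
  have h4 : Submodule.span R X ≤ (Submodule.span R X).map g := by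
    refine Submodule.span_le.2 fun x hx => ?_
    obtain ⟨x', hx', rfl⟩ := h2 x hx
    exact ⟨x', Submodule.subset_span hx', rfl⟩
  have h5 : Function.Surjective (fun x : Submodule.span R X => (⟨g x.1, h3 x.1 x.2⟩ : Submodule.span R X)) := by
    rintro ⟨y, hy⟩
    obtain ⟨x, hx, rfl⟩ := h4 hy
    exact ⟨⟨x, hx⟩, rfl⟩
  have h6 := Finite.injective_iff_surjective.2 h5
  have h7 : Finite Q := Finite.of_injective (fun x : Q => (⟨x.1, hQ x.2⟩ : Submodule.span R X))
    (fun x y h => Subtype.ext (congrArg (fun z : Submodule.span R X => z.1) h))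
  have h8 : Function.Injective (fun x : Q => (⟨g x.1, hgQ x.1 x.2⟩ : Q)) := by
    intro x y h
    have h' : g x.1 = g y.1 := congrArg Subtype.val h
    have := @h6 ⟨x.1, hQ x.2⟩ ⟨y.1, hQ y.2⟩ (Subtype.ext h')
    exact Subtype.ext (congrArg (fun z : Submodule.span R X => z.1) this)
  have h9 := Finite.injective_iff_surjective.1 h8
  intro x hx
  obtain ⟨y, hy⟩ := h9 ⟨x, hx⟩
  exact ⟨y.1, y.2, congrArg Subtype.val hy⟩

/-- an additive map on `A₀` which kills a subgroup of finite index has finite image -/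
theorem fin_image {W M : Type} [AddCommGroup W] [Module (ZMod 2) W] [AddCommGroup M]
    (A C : Submodule (ZMod 2) W) (hfi : C.toAddSubgroup.relIndex A.toAddSubgroup ≠ 0)
    (f : W → M) (hadd : ∀ a ∈ A, ∀ a' ∈ A, f (a + a') = f a + f a') (h0 : ∀ a ∈ A, a ∈ C → f a = 0) :
    (f '' A).Finite := by
  let g : A.toAddSubgroup →+ M := AddMonoidHom.mk' (fun a => f a.1) (fun a b => hadd a.1 a.2 b.1 b.2)
  have h1 : (C.toAddSubgroup.addSubgroupOf A.toAddSubgroup) ≤ g.ker := by
    intro a ha
    exact h0 a.1 a.2 ha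
  have h2 : g.ker.index ≠ 0 := by
    intro h
    apply hfi
    have := AddSubgroup.index_dvd_of_le h1
    rw [h] at this
    exact Nat.eq_zero_of_zero_dvd this
  have h3 : Finite g.range := by
    have := AddSubgroup.index_ker g
    rw [this] at h2
    exact Nat.finite_of_card_ne_zero h2
  have h4 : f '' A = (g.range : Set M) := by
    ext x
    constructor
    · rintro ⟨a, ha, rfl⟩
      exact ⟨⟨a, ha⟩, rfl⟩
    · rintro ⟨a, rfl⟩
      exact ⟨a.1, a.2, rfl⟩
  rw [h4]
  exact Set.toFinite _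

theorem Fi.mono_right {V : Type} [AddCommGroup V] [Module (ZMod 2) V] {A B C : Submodule (ZMod 2) V}
    (h : Fi A C) (hBC : B ≤ C) : Fi A B := by
  intro h0
  exact h (AddSubgroup.relIndex_eq_zero_of_le_right (show B.toAddSubgroup ≤ C.toAddSubgroup from hBC) h0)

namespace Dat
variable {k : ℕ} {V : Type} [AddCommGroup V] [Module (ZMod 2) V]

theorem A₀FB (D : Dat k V) (x : FB) (a : KK) (ha : a ∈ D.A₀) : algebraMap FB KK x * a ∈ D.A₀ := by
  induction x using MonoidAlgebra.induction_on with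
  | of b => exact D.A₀β b a ha
  | add x y hx hy => rw [map_add, add_mul]; exact add_mem hx hy
  | smul r x hx =>
    rcases (by decide : ∀ c : ZMod 2, c = 0 ∨ c = 1) r with rfl | rfl
    · rw [zero_smul, map_zero, zero_mul]; exact zero_mem _
    · rwa [one_smul]

/-- the ideal of `FB` given by `A₀ ∩ FBK` -/
noncomputable def J₀ (D : Dat k V) : Ideal FB where
  carrier := {x | algebraMap FB KK x ∈ D.A₀}
  zero_mem' := by
    show algebraMap FB KK 0 ∈ D.A₀
    rw [map_zero]; exact zero_mem _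
  add_mem' := by
    intro x y hx hy
    show algebraMap FB KK (x + y) ∈ D.A₀
    rw [map_add]; exact add_mem hx hy
  smul_mem' := by
    intro c x hx
    show algebraMap FB KK (c * x) ∈ D.A₀
    rw [map_mul]; exact D.A₀FB c _ hx

theorem mem_J₀ (D : Dat k V) (x : FB) : x ∈ D.J₀ ↔ algebraMap FB KK x ∈ D.A₀ := Iff.rfl

theorem A₀pow (D : Dat k V) (n : ℕ) (a : KK) : a ∈ D.A₀ ↔ (tA ^ (k * n)) a ∈ D.A₀ := by
  induction n with
  | zero => simp
  | succ n ih =>
    rw [ih, D.A₀t, ← LinearEquiv.mul_apply, ← pow_add, Nat.mul_succ, Nat.add_comm]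

theorem αpow (D : Dat k V) (n : ℕ) (a : KK) (ha : a ∈ D.A₀) :
    D.α ((tA ^ (k * n)) a) = (D.t ^ n) (D.α a) := by
  induction n with
  | zero => simp
  | succ n ih =>
    rw [Nat.mul_succ, Nat.add_comm, pow_add, LinearEquiv.mul_apply, D.αt _ ((D.A₀pow n a).1 ha), ih,
      pow_succ', LinearEquiv.mul_apply]

theorem αsub (D : Dat k V) (a : KK) (ha : a ∈ D.A₀) (b : KK) (hb : b ∈ D.A₀) :
    D.α (a - b) = D.α a - D.α b := by
  have := D.αadd (a - b) (sub_mem ha hb) b hb
  rw [sub_add_cancel] at this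
  rw [this, add_sub_cancel_right]

end Dat

end Pool.Agent.H316.EM
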