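import Pool.Agent.H316.EM.Core2

/-!
# MP_e2f787 (S03350): CORE, generic freeness
-/

set_option autoImplicit false

namespace Pool.Agent.H316.EM

open Pool.Agent.Y45.HM (GF)
open Pool.Agent.Helper294.HallC (Ser)

theorem noeFB : IsNoetherianRing FB := by
  haveI : Algebra.FiniteType (ZMod 2) FB := inferInstance
  exact Algebra.FiniteType.isNoetherianRing (ZMod 2) FB

/-- the subgroup of the automorphisms which commute with `R` -/
def CR (V R : Type) [AddCommGroup V] [Module (ZMod 2) V] [CommRing R] [Module R V] : Subgroup (Au V) where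
  carrier := {γ | ∀ (r : R) (v : V), γ (r • v) = r • γ v}
  one_mem' := fun r v => rfl
  mul_mem' := by
    intro a b ha hb r v
    show a (b (r • v)) = r • a (b v)
    rw [hb, ha]
  inv_mem' := by
    intro a ha r v
    show a.symm (r • v) = r • a.symm v
    rw [LinearEquiv.symm_apply_eq, ha, LinearEquiv.apply_symm_apply]

instance (V R : Type) [AddCommGroup V] [Module (ZMod 2) V] [CommRing R] [Module R V] :
    SMulCommClass (CR V R) R V := ⟨fun γ r v => γ.2 r v⟩

namespace Dat
variable {k : ℕ} {V : Type} [AddCommGroup V] [Module (ZMod 2) V]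

/-- the image of `A₀ ∩ FBK` -/
def UX (D : Dat k V) : Set V := {v | ∃ x ∈ D.J₀, v = D.α (algebraMap FB KK x)}

theorem αJadd (D : Dat k V) (x y : FB) (hx : x ∈ D.J₀) (hy : y ∈ D.J₀) :
    D.α (algebraMap FB KK (x + y)) = D.α (algebraMap FB KK x) + D.α (algebraMap FB KK y) := by
  rw [map_add]; exact D.αadd _ hx _ hy

theorem αJb (D : Dat k V) (b : B) (x : FB) (hx : x ∈ D.J₀) :
    D.α (algebraMap FB KK (eb b * x)) = D.β b (D.α (algebraMap FB KK x)) := by
  rw [map_mul]; exact D.αβ b _ hx

/-- representatives of `B / B ^ N` -/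
theorem repB (N : ℕ) (hN : 0 < N) (b : B) : ∃ i j : ℕ, i < N ∧ j < N ∧ ∃ b' : B,
    b = b' ^ N * Multiplicative.ofAdd ((i : ℤ), (j : ℤ)) := by
  refine ⟨((Multiplicative.toAdd b).1 % N).toNat, ((Multiplicative.toAdd b).2 % N).toNat, ?_, ?_,
    Multiplicative.ofAdd ((Multiplicative.toAdd b).1 / N, (Multiplicative.toAdd b).2 / N), ?_⟩
  · have := Int.emod_lt_of_pos (Multiplicative.toAdd b).1 (show (0 : ℤ) < N by exact_mod_cast hN)
    have h2 := Int.emod_nonneg (Multiplicative.toAdd b).1 (show (N : ℤ) ≠ 0 by exact_mod_cast hN.ne')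
    omega
  · have := Int.emod_lt_of_pos (Multiplicative.toAdd b).2 (show (0 : ℤ) < N by exact_mod_cast hN)
    have h2 := Int.emod_nonneg (Multiplicative.toAdd b).2 (show (N : ℤ) ≠ 0 by exact_mod_cast hN.ne')
    omega
  · apply Multiplicative.toAdd.injective
    have h2 := Int.emod_nonneg (Multiplicative.toAdd b).1 (show (N : ℤ) ≠ 0 by exact_mod_cast hN.ne')
    have h3 := Int.emod_nonneg (Multiplicative.toAdd b).2 (show (N : ℤ) ≠ 0 by exact_mod_cast hN.ne')
    have e1 := Int.mul_ediv_add_emod (Multiplicative.toAdd b).1 N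
    have e2 := Int.mul_ediv_add_emod (Multiplicative.toAdd b).2 N
    rw [toAdd_mul, toAdd_pow, toAdd_ofAdd, toAdd_ofAdd]
    ext
    · simp [Int.toNat_of_nonneg h2, e1]
    · simp [Int.toNat_of_nonneg h3, e2]

theorem gf (hUNI : S_UNI) (hGF : S_GF) (hCHAIN : S_CHAIN) (hSER : S_SER) (D : Dat k V) (hk : 0 < k)
    (R : Type) [CommRing R] [IsDomain R] [Algebra (ZMod 2) R] [Algebra.FiniteType (ZMod 2) R] [Module R V]
    (hL : ∀ l ∈ D.L, ∀ (r : R) (v : V), l (r • v) = r • l v)
    (hβ : ∀ b, ∀ (r : R) (v : V), D.β b (r • v) = r • D.β b v) :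
    ∃ τ : R, τ ≠ 0 ∧ GF τ (Submodule.span R D.UX) ⊤ := by
  classical
  haveI : IsNoetherianRing R := Algebra.FiniteType.isNoetherianRing (ZMod 2) R
  haveI := noeFB
  obtain ⟨N, c, hN, hu⟩ := D.uni hUNI hk
  have hLle : D.L ≤ CR V R := fun l hl r v => hL l hl r v
  let β' : B →* CR V R := MonoidHom.mk' (fun b => ⟨D.β (b ^ N), fun r v => hβ _ r v⟩) (fun a b => by
    apply Subtype.ext
    show D.β ((a * b) ^ N) = D.β (a ^ N) * D.β (b ^ N)
    rw [mul_pow, map_mul])
  let L' : Subgroup (CR V R) := D.L.subgroupOf (CR V R)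
  have hL'fg : L'.FG := by
    rw [← Group.fg_iff_subgroup_fg]
    haveI : Group.FG D.L := (Group.fg_iff_subgroup_fg D.L).2 D.Lfg
    exact Group.fg_of_surjective (f := (Subgroup.subgroupOfEquivOfLe hLle).symm.toMonoidHom)
      (Subgroup.subgroupOfEquivOfLe hLle).symm.surjective
  have hchn : Chn β'.range (L' ⊔ β'.range) := by
    refine hCHAIN (CR V R) L' hL'fg ?_ β' ?_ c ?_
    · intro x hx y hy
      exact Subtype.ext (D.Lcomm x.1 hx y.1 hy)
    · intro b l hl
      exact D.Lβ (b ^ N) l.1 hl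
    · intro b l hl
      have key : ∀ (n : ℕ) (l : CR V R), (((fun x => β' b * x * (β' b)⁻¹ * x⁻¹)^[n] l : CR V R) : Au V)
          = (fun x => D.β (b ^ N) * x * (D.β (b ^ N))⁻¹ * x⁻¹)^[n] l.1 := by
        intro n
        induction n with
        | zero => intro l; rfl
        | succ n ih =>
          intro l
          rw [Function.iterate_succ_apply, Function.iterate_succ_apply, ih]
          rfl
      apply Subtype.ext
      rw [key, hu b l.1 hl]
      rfl
  have hser : Ser 2 β'.range := hSER (CR V R) β'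
  obtain ⟨F, hF⟩ := D.fg
  obtain ⟨G, hG⟩ : D.J₀.FG := IsNoetherian.noetherian D.J₀
  let F₀ : Finset V := (G ×ˢ (Finset.range N ×ˢ Finset.range N)).image
    (fun p => D.α (algebraMap FB KK (eb (Multiplicative.ofAdd ((p.2.1 : ℤ), (p.2.2 : ℤ))) * p.1)))
  have htop : Submodule.span R {a : V | ∃ g ∈ L' ⊔ β'.range, ∃ x ∈ (F : Set V), a = g • x} = ⊤ := by
    rw [eq_top_iff]
    intro v _
    have hv : v ∈ Submodule.span (ZMod 2) {x : V | ∃ l ∈ D.L, ∃ s ∈ F, x = l s} := by
      rw [hF]; trivial
    induction hv using Submodule.span_induction with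
    | mem x hx =>
      obtain ⟨l, hl, s, hs, rfl⟩ := hx
      refine Submodule.subset_span ⟨⟨l, hLle hl⟩, ?_, s, hs, rfl⟩
      exact (le_sup_left : L' ≤ L' ⊔ β'.range) (show (⟨l, hLle hl⟩ : CR V R) ∈ L' from hl)
    | zero => exact zero_mem _
    | add x y _ _ hx hy => exact add_mem (hx trivial) (hy trivial)
    | smul c x _ hx =>
      rcases (by decide : ∀ c : ZMod 2, c = 0 ∨ c = 1) c with rfl | rfl
      · rw [zero_smul]; exact zero_mem _
      · rw [one_smul]; exact hx trivial
  obtain ⟨τ, hτ, h⟩ := hGF R (CR V R) V β'.range (L' ⊔ β'.range) 2 hser hchn F₀ F htop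
  refine ⟨τ, hτ, ?_⟩
  have hW : Submodule.span R {a : V | ∃ g ∈ β'.range, ∃ x ∈ (F₀ : Set V), a = g • x}
      = Submodule.span R D.UX := by
    apply le_antisymm
    · refine Submodule.span_le.2 ?_
      rintro _ ⟨_, ⟨b, rfl⟩, x, hx, rfl⟩
      obtain ⟨p, hp, rfl⟩ := Finset.mem_image.1 hx
      have hp1 : p.1 ∈ D.J₀ := by
        rw [← hG]
        exact Submodule.subset_span (Finset.mem_product.1 hp).1
      refine Submodule.subset_span ⟨eb (b ^ N) * (eb (Multiplicative.ofAdd ((p.2.1 : ℤ), (p.2.2 : ℤ))) * p.1), ?_, ?_⟩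
      · exact D.J₀.mul_mem_left _ (D.J₀.mul_mem_left _ hp1)
      · rw [D.αJb _ _ (D.J₀.mul_mem_left _ hp1)]
        rfl
    · refine Submodule.span_le.2 ?_
      rintro _ ⟨y, hy, rfl⟩
      set W := Submodule.span R {a : V | ∃ g ∈ β'.range, ∃ x ∈ (F₀ : Set V), a = g • x} with hWdef
      have key : ∀ y ∈ Submodule.span FB (G : Set FB), ∀ b : B,
          D.α (algebraMap FB KK (eb b * y)) ∈ W := by
        intro y hy
        induction hy using Submodule.span_induction with
        | mem y hy =>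
          intro b
          have hyJ : y ∈ D.J₀ := by
            rw [← hG]; exact Submodule.subset_span hy
          obtain ⟨i, j, hi, hj, b', rfl⟩ := repB N hN b
          rw [eb_mul, mul_assoc, D.αJb _ _ (D.J₀.mul_mem_left _ hyJ)]
          refine Submodule.subset_span ⟨β' b', ⟨b', rfl⟩, _, ?_, rfl⟩
          refine Finset.mem_coe.2 (Finset.mem_image.2 ⟨(y, (i, j)), ?_, rfl⟩)
          exact Finset.mem_product.2 ⟨hy, Finset.mem_product.2 ⟨Finset.mem_range.2 hi, Finset.mem_range.2 hj⟩⟩
        | zero =>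
          intro b
          rw [mul_zero, map_zero, D.αzero]
          exact zero_mem _
        | add x y hx' hy' hx hy =>
          intro b
          have hxJ : x ∈ D.J₀ := by rw [← hG]; exact hx'
          have hyJ : y ∈ D.J₀ := by rw [← hG]; exact hy'
          rw [mul_add, D.αJadd _ _ (D.J₀.mul_mem_left _ hxJ) (D.J₀.mul_mem_left _ hyJ)]
          exact add_mem (hx b) (hy b)
        | smul a y hy' hy =>
          have hyJ : y ∈ D.J₀ := by rw [← hG]; exact hy'
          intro b
          rw [smul_eq_mul]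
          induction a using MonoidAlgebra.induction_on with
          | of b1 =>
            show D.α (algebraMap FB KK (eb b * (eb b1 * y))) ∈ W
            rw [← mul_assoc, ← eb_mul]
            exact hy _
          | add x z hx hz =>
            rw [add_mul, mul_add, D.αJadd _ _ (D.J₀.mul_mem_left _ (D.J₀.mul_mem_left _ hyJ))
              (D.J₀.mul_mem_left _ (D.J₀.mul_mem_left _ hyJ))]
            exact add_mem hx hz
          | smul r x hx =>
            rcases (by decide : ∀ c : ZMod 2, c = 0 ∨ c = 1) r with rfl | rfl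
            · rw [zero_smul, zero_mul, mul_zero, map_zero, D.αzero]
              exact zero_mem _
            · rwa [one_smul]
      have := key y (by rw [← hG] at hy; exact hy) 1
      rwa [eb_one, one_mul] at this
  rw [← hW]
  exact h

end Dat

end Pool.Agent.H316.EM
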