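import Pool.Agent.H316.EM.Core3

/-!
# MP_e2f787 (S03350): CORE, the two main steps
-/

set_option autoImplicit false

namespace Pool.Agent.H316.EM

open Pool.Agent.Y45.HM (GF)

theorem conj_pow (hAAUN : S_AAUN) (n : ℕ) (b : B) (a : KK) :
    (tA ^ n) (mB b a) = mB ((th ^ n) b) ((tA ^ n) a) := by
  obtain ⟨-, -, -, -, h⟩ := hAAUN
  induction n with
  | zero => rfl
  | succ n ih =>
    have h1 : tA (mB ((th ^ n) b) ((tA ^ n) a)) = mB (th ((th ^ n) b)) (tA ((tA ^ n) a)) := by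
      rw [← h]
      show _ = tA (mB ((th ^ n) b) (tA.symm (tA ((tA ^ n) a))))
      rw [LinearEquiv.symm_apply_apply]
    rw [pow_succ', LinearEquiv.mul_apply, ih, h1, pow_succ']
    rfl

theorem conj_FB (hAAUN : S_AAUN) (n : ℕ) (x : FB) (a : KK) :
    (tA ^ n) (algebraMap FB KK x * a) = algebraMap FB KK (rF (th ^ n) x) * (tA ^ n) a := by
  induction x using MonoidAlgebra.induction_on with
  | of b =>
    have h1 : rF (th ^ n) (MonoidAlgebra.of (ZMod 2) B b) = eb ((th ^ n) b) := rF_eb (th ^ n) b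
    rw [h1]
    exact conj_pow hAAUN n b a
  | add x y hx hy => rw [map_add, add_mul, map_add, hx, hy, map_add, map_add, add_mul]
  | smul r x hx =>
    rcases (by decide : ∀ c : ZMod 2, c = 0 ∨ c = 1) r with rfl | rfl
    · rw [zero_smul, map_zero, zero_mul, map_zero, map_zero, map_zero, zero_mul]
    · rwa [one_smul]

theorem symm_pow_FBK (hAAUN : S_AAUN) (n : ℕ) (y : KK) (hy : y ∈ FBK) :
    ∃ z ∈ FBK, y = (tA ^ n) z := by
  obtain ⟨-, h, -, -, -⟩ := hAAUN
  induction n with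
  | zero => exact ⟨y, hy, rfl⟩
  | succ n ih =>
    obtain ⟨z, hz, rfl⟩ := ih
    refine ⟨tA⁻¹ z, h z hz, ?_⟩
    rw [pow_succ, LinearEquiv.mul_apply]
    show (tA ^ n) z = (tA ^ n) (tA (tA.symm z))
    rw [LinearEquiv.apply_symm_apply]

namespace Dat
variable {k : ℕ} {V : Type} [AddCommGroup V] [Module (ZMod 2) V]

theorem αι (D : Dat k V) (T : Type) [CommRing T] [Module T V] (ι : FB →+* T)
    (hι : ∀ b (v : V), ι (eb b) • v = D.β b v) (x : FB) (a : KK) (ha : a ∈ D.A₀) :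
    D.α (algebraMap FB KK x * a) = ι x • D.α a := by
  induction x using MonoidAlgebra.induction_on with
  | of b =>
    have h1 : ι (MonoidAlgebra.of (ZMod 2) B b) • D.α a = D.β b (D.α a) := hι b (D.α a)
    rw [h1]
    exact D.αβ b a ha
  | add x y hx hy =>
    rw [map_add, add_mul, D.αadd _ (D.A₀FB x a ha) _ (D.A₀FB y a ha), hx, hy, map_add, add_smul]
  | smul r x hx =>
    rcases (by decide : ∀ c : ZMod 2, c = 0 ∨ c = 1) r with rfl | rfl
    · rw [zero_smul, map_zero, zero_mul, D.αzero, map_zero, zero_smul]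
    · rwa [one_smul]

theorem αιJ (D : Dat k V) (T : Type) [CommRing T] [Module T V] (ι : FB →+* T)
    (hι : ∀ b (v : V), ι (eb b) • v = D.β b v) (x y : FB) (hy : y ∈ D.J₀) :
    D.α (algebraMap FB KK (x * y)) = ι x • D.α (algebraMap FB KK y) := by
  rw [map_mul]; exact D.αι T ι hι x _ hy

theorem step7 (hAAUN : S_AAUN) (hIDEAL : S_IDEAL) (D : Dat k V) (hk : 0 < k) (T : Type) [CommRing T]
    [Module T V] (ι : FB →+* T) (hι : ∀ b (v : V), ι (eb b) • v = D.β b v) (x : FB)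
    (hx : ∀ y ∈ D.J₀, ι x • D.α (algebraMap FB KK y) = 0) : x = 0 := by
  classical
  by_contra hx0
  have hAAUN' := hAAUN
  obtain ⟨hAA1, hAA2, -, -, -⟩ := hAAUN'
  let J : Ideal FB :=
    { carrier := {x | ∀ y ∈ D.J₀, ι x • D.α (algebraMap FB KK y) = 0}
      zero_mem' := fun y hy => by rw [map_zero, zero_smul]
      add_mem' := fun {a b} ha hb y hy => by rw [map_add, add_smul, ha y hy, hb y hy, add_zero]
      smul_mem' := fun c a ha y hy => by rw [smul_eq_mul, map_mul, mul_smul, ha y hy, smul_zero] }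
  have hJ : ∀ x ∈ J, rF (th ^ k) x ∈ J := by
    intro x hx y hy
    obtain ⟨z, ⟨y', rfl⟩, hz⟩ := symm_pow_FBK hAAUN k (algebraMap FB KK y) ⟨y, rfl⟩
    change algebraMap FB KK y = (tA ^ k) (algebraMap FB KK y') at hz
    have hy' : y' ∈ D.J₀ := by
      show algebraMap FB KK y' ∈ D.A₀
      rw [D.A₀t, ← hz]
      exact hy
    rw [← D.αιJ T ι hι _ _ hy, map_mul, hz, ← conj_FB hAAUN, D.αt _ (D.A₀FB _ _ hy'),
      D.αι T ι hι _ _ hy', hx y' hy', map_zero]
  haveI hfin : Finite (FB ⧸ J) := hIDEAL k hk J hJ (fun h => hx0 (by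
    have : x ∈ J := hx
    rw [h] at this
    exact this))
  haveI := noeFB
  obtain ⟨G, hG⟩ : D.J₀.FG := IsNoetherian.noetherian D.J₀
  letI : Module FB V := Module.compHom V ι
  have hsm : ∀ (x : FB) (v : V), x • v = ι x • v := fun x v => rfl
  have h1 : Finite (Submodule.span FB ((fun g => D.α (algebraMap FB KK g)) '' (G : Set FB))) := by
    refine finite_span J _ (G.finite_toSet.image _) ?_
    rintro r hr _ ⟨g, hg, rfl⟩
    exact hr g (by rw [← hG]; exact Submodule.subset_span hg)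
  have h2 : D.UX ⊆ Submodule.span FB ((fun g => D.α (algebraMap FB KK g)) '' (G : Set FB)) := by
    rintro _ ⟨y, hy, rfl⟩
    rw [← hG] at hy
    show D.α (algebraMap FB KK y) ∈ Submodule.span FB ((fun g => D.α (algebraMap FB KK g)) '' (G : Set FB))
    induction hy using Submodule.span_induction with
    | mem y hy => exact Submodule.subset_span ⟨y, hy, rfl⟩
    | zero => rw [map_zero, D.αzero]; exact zero_mem _
    | add x y hx' hy' hx hy =>
      rw [D.αJadd x y (by rw [← hG]; exact hx') (by rw [← hG]; exact hy')]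
      exact add_mem hx hy
    | smul a y hy' hy =>
      rw [smul_eq_mul, D.αιJ T ι hι _ _ (by rw [← hG]; exact hy')]
      exact Submodule.smul_mem _ a hy
  have h3 : D.UX.Finite := (Set.toFinite _).subset h2
  have h4 : ∀ v ∈ D.UX, D.t.symm v ∈ D.UX := by
    rintro _ ⟨y, hy, rfl⟩
    obtain ⟨z, ⟨y', rfl⟩, hz⟩ := symm_pow_FBK hAAUN k (algebraMap FB KK y) ⟨y, rfl⟩
    change algebraMap FB KK y = (tA ^ k) (algebraMap FB KK y') at hz
    have hy' : y' ∈ D.J₀ := by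
      show algebraMap FB KK y' ∈ D.A₀
      rw [D.A₀t, ← hz]
      exact hy
    refine ⟨y', hy', ?_⟩
    rw [hz, D.αt _ hy', LinearEquiv.symm_apply_apply]
  haveI : Finite D.UX := h3
  have h5 : Function.Injective (fun v : D.UX => (⟨D.t.symm v.1, h4 v.1 v.2⟩ : D.UX)) := by
    intro v w h
    exact Subtype.ext (D.t.symm.injective (congrArg Subtype.val h))
  have h6 := Finite.injective_iff_surjective.1 h5
  have h7 : ∀ v ∈ D.UX, D.t v ∈ D.UX := by
    intro v hv
    obtain ⟨w, hw⟩ := h6 ⟨v, hv⟩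
    have : D.t.symm w.1 = v := congrArg Subtype.val hw
    rw [← this, LinearEquiv.apply_symm_apply]
    exact w.2
  have h8 : ∀ n : ℕ, ∀ v ∈ D.UX, (D.t ^ n) v ∈ D.UX := by
    intro n
    induction n with
    | zero => intro v hv; exact hv
    | succ n ih =>
      intro v hv
      rw [pow_succ', LinearEquiv.mul_apply]
      exact h7 _ (ih v hv)
  apply D.inf
  refine h3.subset ?_
  rintro _ ⟨a, ha, rfl⟩
  obtain ⟨n, y, hy, rfl⟩ := (hAA1 a).1 (D.A₀le ha)
  obtain ⟨z, ⟨y', rfl⟩, hz⟩ := symm_pow_FBK hAAUN (k * n - n) y hy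
  change y = (tA ^ (k * n - n)) (algebraMap FB KK y') at hz
  have hkn : n + (k * n - n) = k * n := Nat.add_sub_cancel' (Nat.le_mul_of_pos_left n hk)
  have h9 : (tA ^ n) y = (tA ^ (k * n)) (algebraMap FB KK y') := by
    rw [hz, ← LinearEquiv.mul_apply, ← pow_add, hkn]
  have hy' : y' ∈ D.J₀ := by
    show algebraMap FB KK y' ∈ D.A₀
    rw [D.A₀pow n, ← h9]
    exact ha
  rw [h9, D.αpow n _ hy']
  exact h8 n _ ⟨y', hy', rfl⟩

theorem step6 (hA1 : S_A1) (hPURE : S_PURE) (D : Dat k V) (hk : 0 < k) (R : Type) [CommRing R] [Module R V]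
    (T : Type) [CommRing T] [Algebra R T] [Module T V] [IsScalarTower R T V] (ι : FB →+* T)
    (hι : ∀ b (v : V), ι (eb b) • v = D.β b v)
    (U : Submodule T V) (hU : ∀ v, v ∈ U ↔ v ∈ Submodule.span R D.UX) (τ : R)
    (hτ : GF τ (Submodule.span R D.UX) ⊤) (m : Ideal R) (hmax : m.IsMaximal) (hτm : τ ∉ m)
    (hfin : Finite (R ⧸ m))
    (hm : ∃ j : ℕ, 0 < j ∧ D.Stb j (mv V m) ∧ Fi (D.pre (mv V m)) AA) (i : ℕ) :
    ∀ u : U, ∃ u' : U, ∃ w ∈ m • (⊤ : Submodule R U), u = ι (ck i) • u' + w := by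
  obtain ⟨j, hj, hStb, hFi⟩ := hm
  have hA : ∀ a ∈ D.A₀, algebraMap FB KK (ck i) * a ∈ D.pre (mv V m) → a ∈ D.pre (mv V m) := by
    intro a ha h
    refine hA1 (k * j) (Nat.mul_pos hk hj) (D.pre (mv V m)) (fun x hx => D.A₀le hx.1) hFi ?_ ?_ i a (D.A₀le ha) h
    · intro b x hx
      exact ⟨D.A₀β b x hx.1, by rw [D.αβ b x hx.1]; exact hStb.2.1 b _ hx.2⟩
    · intro x
      rw [mem_pre, mem_pre, ← D.A₀pow j x]
      refine and_congr_right fun hx => ?_
      rw [D.αpow j x hx]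
      exact hStb.2.2 _
  let P : Submodule R V := m • ⊤
  let Lg : V →ₗ[R] V :=
    { toFun := fun v => ι (ck i) • v
      map_add' := fun v w => smul_add _ v w
      map_smul' := fun r v => smul_comm _ r v }
  have hLg : P ≤ P.comap Lg := by
    intro v hv
    refine Submodule.smul_induction_on hv (fun r hr v _ => ?_) (fun x y hx hy => ?_)
    · show Lg (r • v) ∈ P
      rw [map_smul]
      exact Submodule.smul_mem_smul hr trivial
    · exact add_mem hx hy
  let g : (V ⧸ P) →ₗ[R] (V ⧸ P) := P.mapQ P Lg hLg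
  have hg : ∀ v, g (P.mkQ v) = P.mkQ (ι (ck i) • v) := fun v => rfl
  let f : KK → V ⧸ P := fun a => P.mkQ (D.α a)
  let X : Set (V ⧸ P) := f '' D.A₀
  have hf0 : ∀ a ∈ D.A₀, (f a = 0 ↔ a ∈ D.pre (mv V m)) := by
    intro a ha
    show P.mkQ (D.α a) = 0 ↔ _
    rw [Submodule.mkQ_apply, Submodule.Quotient.mk_eq_zero, mem_pre, mem_mv]
    exact ⟨fun h => ⟨ha, h⟩, fun h => h.2⟩
  have hfadd : ∀ a ∈ D.A₀, ∀ a' ∈ D.A₀, f (a + a') = f a + f a' := by
    intro a ha a' ha'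
    show P.mkQ (D.α (a + a')) = _
    rw [D.αadd a ha a' ha', map_add]
  have hfsub : ∀ a ∈ D.A₀, ∀ a' ∈ D.A₀, f (a - a') = f a - f a' := by
    intro a ha a' ha'
    show P.mkQ (D.α (a - a')) = _
    rw [D.αsub a ha a' ha', map_sub]
  have hXfin : X.Finite := fin_image D.A₀ (D.pre (mv V m)) (hFi.mono_right D.A₀le) f hfadd
    (fun a ha h => (hf0 a ha).2 h)
  have hspanfin : Finite (Submodule.span R X) := by
    refine finite_span m X hXfin ?_
    rintro r hr _ ⟨a, ha, rfl⟩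
    show r • P.mkQ (D.α a) = 0
    rw [← map_smul, Submodule.mkQ_apply, Submodule.Quotient.mk_eq_zero]
    exact Submodule.smul_mem_smul hr trivial
  have hgf : ∀ a ∈ D.A₀, g (f a) = f (algebraMap FB KK (ck i) * a) := by
    intro a ha
    show g (P.mkQ (D.α a)) = P.mkQ (D.α (algebraMap FB KK (ck i) * a))
    rw [hg, D.αι T ι hι _ _ ha]
  have h1 : ∀ x ∈ X, g x ∈ X := by
    rintro _ ⟨a, ha, rfl⟩
    rw [hgf a ha]
    exact ⟨_, D.A₀FB _ _ ha, rfl⟩
  have h2 : ∀ x ∈ X, ∃ x' ∈ X, g x' = x := by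
    haveI : Finite X := hXfin
    have hinj : Function.Injective (fun x : X => (⟨g x.1, h1 x.1 x.2⟩ : X)) := by
      rintro ⟨_, a, ha, rfl⟩ ⟨_, b, hb, rfl⟩ h
      have h' : g (f a) = g (f b) := congrArg Subtype.val h
      apply Subtype.ext
      show f a = f b
      rw [← sub_eq_zero, ← hfsub a ha b hb, hf0 _ (sub_mem ha hb)]
      apply hA _ (sub_mem ha hb)
      rw [← hf0 _ (D.A₀FB _ _ (sub_mem ha hb)), ← hgf _ (sub_mem ha hb), hfsub a ha b hb, map_sub, h', sub_self]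
    have hsurj := Finite.injective_iff_surjective.1 hinj
    intro x hx
    obtain ⟨y, hy⟩ := hsurj ⟨x, hx⟩
    exact ⟨y.1, y.2, congrArg Subtype.val hy⟩
  have hQ : (Submodule.span R D.UX).map P.mkQ ≤ Submodule.span R X := by
    rw [Submodule.map_le_iff_le_comap]
    refine Submodule.span_le.2 ?_
    rintro _ ⟨y, hy, rfl⟩
    exact Submodule.subset_span ⟨_, hy, rfl⟩
  have hgQ : ∀ x ∈ (Submodule.span R D.UX).map P.mkQ, g x ∈ (Submodule.span R D.UX).map P.mkQ := by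
    rintro _ ⟨u, hu, rfl⟩
    rw [hg]
    refine ⟨ι (ck i) • u, ?_, rfl⟩
    exact (hU _).1 (U.smul_mem _ ((hU u).2 hu))
  have h3 := lin_surj g X hspanfin h1 h2 _ hQ hgQ
  intro u
  obtain ⟨_, ⟨u', hu', rfl⟩, h4⟩ := h3 (P.mkQ u.1) ⟨u.1, (hU _).1 u.2, rfl⟩
  rw [hg, ← sub_eq_zero, ← map_sub, Submodule.mkQ_apply, Submodule.Quotient.mk_eq_zero] at h4
  have h5 : u.1 - ι (ck i) • u' ∈ P := by
    rw [← neg_sub]; exact neg_mem h4
  have h6 : u.1 - ι (ck i) • u' ∈ Submodule.span R D.UX :=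
    sub_mem ((hU _).1 u.2) ((hU _).1 (U.smul_mem _ ((hU u').2 hu')))
  have h7 := hPURE R V τ _ hτ m hmax hτm _ h6 h5
  have key : ∀ w ∈ m • Submodule.span R D.UX, ∃ w' ∈ m • (⊤ : Submodule R U), (w' : V) = w := by
    intro w hw
    refine Submodule.smul_induction_on hw (fun r hr v hv => ?_) (fun x y hx hy => ?_)
    · exact ⟨r • ⟨v, (hU v).2 hv⟩, Submodule.smul_mem_smul hr trivial, rfl⟩
    · obtain ⟨x', hx', rfl⟩ := hx
      obtain ⟨y', hy', rfl⟩ := hy
      exact ⟨x' + y', add_mem hx' hy', rfl⟩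
  obtain ⟨w, hw, hw'⟩ := key _ h7
  refine ⟨⟨u', (hU u').2 hu'⟩, w, hw, Subtype.ext ?_⟩
  show u.1 = ι (ck i) • u' + w.1
  rw [hw', add_sub_cancel]

end Dat

end Pool.Agent.H316.EM
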