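import Pool.Agent.H316.EM.Core4

/-!
# MP_e2f787 (S03350): CORE, the end of the proof
-/

set_option autoImplicit false

namespace Pool.Agent.H316.EM

open Pool.Agent.Y45.HM (GF)

namespace Dat
variable {k : ℕ} {V : Type} [AddCommGroup V] [Module (ZMod 2) V]

theorem core_abs (hA1 : S_A1) (hAAUN : S_AAUN) (hIDEAL : S_IDEAL) (hUNI : S_UNI) (hGF : S_GF)
    (hPURE : S_PURE) (hCHAIN : S_CHAIN) (hSER : Pool.Agent.H316.EM.S_SER) (hJAC : S_JAC) (hFINAL : S_FINAL)
    (D : Dat k V) (hk : 0 < k)
    (R : Type) [CommRing R] [IsDomain R] [Algebra (ZMod 2) R] [Algebra.FiniteType (ZMod 2) R] [Module R V]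
    (h0 : ∀ (r : R) (v : V), r • v = 0 → r = 0 ∨ v = 0)
    (hL : ∀ l ∈ D.L, ∀ (r : R) (v : V), l (r • v) = r • l v)
    (hβ : ∀ b, ∀ (r : R) (v : V), D.β b (r • v) = r • D.β b v)
    (hm : ∀ m : Ideal R, m.IsMaximal → ∃ j : ℕ, 0 < j ∧ D.Stb j (mv V m) ∧ Fi (D.pre (mv V m)) AA)
    (T : Type) [CommRing T] [Algebra (ZMod 2) T] [Algebra.FiniteType (ZMod 2) T] [Algebra R T]
    [Module T V] [IsScalarTower R T V] (ι : FB →+* T)
    (hι : ∀ b (v : V), ι (eb b) • v = D.β b v)
    (hspan : ∀ t : T, t ∈ Submodule.span R (Set.range (fun b => ι (eb b)))) : False := by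
  classical
  haveI := noeFB
  obtain ⟨τ, hτ, hgf⟩ := D.gf hUNI hGF hCHAIN hSER hk R hL hβ
  obtain ⟨G, hG⟩ : D.J₀.FG := IsNoetherian.noetherian D.J₀
  let U : Submodule T V := Submodule.span T ((fun g => D.α (algebraMap FB KK g)) '' (G : Set FB))
  have hUX : ∀ y ∈ D.J₀, D.α (algebraMap FB KK y) ∈ U := by
    intro y hy
    rw [← hG] at hy
    induction hy using Submodule.span_induction with
    | mem y hy => exact Submodule.subset_span ⟨y, hy, rfl⟩
    | zero => rw [map_zero, D.αzero]; exact zero_mem _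
    | add x y hx' hy' hx hy =>
      rw [D.αJadd x y (by rw [← hG]; exact hx') (by rw [← hG]; exact hy')]
      exact add_mem hx hy
    | smul a y hy' hy =>
      rw [smul_eq_mul, D.αιJ T ι hι _ _ (by rw [← hG]; exact hy')]
      exact Submodule.smul_mem _ _ hy
  have hst : ∀ (t : T), ∀ v ∈ Submodule.span R D.UX, t • v ∈ Submodule.span R D.UX := by
    intro t
    induction hspan t using Submodule.span_induction with
    | mem t ht =>
      obtain ⟨b, rfl⟩ := ht
      intro v hv
      show ι (eb b) • v ∈ _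
      induction hv using Submodule.span_induction with
      | mem v hv =>
        obtain ⟨y, hy, rfl⟩ := hv
        rw [← D.αιJ T ι hι _ _ hy]
        exact Submodule.subset_span ⟨_, D.J₀.mul_mem_left _ hy, rfl⟩
      | zero => rw [smul_zero]; exact zero_mem _
      | add x y _ _ hx hy => rw [smul_add]; exact add_mem hx hy
      | smul r x _ hx => rw [smul_comm]; exact Submodule.smul_mem _ _ hx
    | zero => intro v _; rw [zero_smul]; exact zero_mem _
    | add x y _ _ hx hy => intro v hv; rw [add_smul]; exact add_mem (hx v hv) (hy v hv)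
    | smul r x _ hx => intro v hv; rw [smul_assoc]; exact Submodule.smul_mem _ _ (hx v hv)
  have hU : ∀ v, v ∈ U ↔ v ∈ Submodule.span R D.UX := by
    intro v
    constructor
    · intro hv
      induction hv using Submodule.span_induction with
      | mem v hv =>
        obtain ⟨y, hy, rfl⟩ := hv
        exact Submodule.subset_span ⟨y, by rw [← hG]; exact Submodule.subset_span hy, rfl⟩
      | zero => exact zero_mem _
      | add x y _ _ hx hy => exact add_mem hx hy
      | smul t x _ hx => exact hst t x hx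
    · intro hv
      have h1 : Submodule.span R D.UX ≤ U.restrictScalars R := by
        refine Submodule.span_le.2 ?_
        rintro _ ⟨y, hy, rfl⟩
        exact hUX y hy
      exact h1 hv
  have hUfg : Module.Finite T U := by
    rw [Module.Finite.iff_fg]
    exact ⟨G.image (fun g => D.α (algebraMap FB KK g)), by rw [Finset.coe_image]⟩
  let I : Ideal T := Module.annihilator T U
  letI : Module (T ⧸ I) U := Module.quotientAnnihilator
  have hmk : ∀ (t : T) (u : U), (Ideal.Quotient.mk I t) • u = t • u := fun t u => rfl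
  haveI : IsScalarTower R (T ⧸ I) U := ⟨by
    intro r s u
    obtain ⟨t, rfl⟩ := Ideal.Quotient.mk_surjective s
    have h1 : r • (Ideal.Quotient.mk I t) = Ideal.Quotient.mk I (r • t) := rfl
    rw [h1, hmk, hmk]
    apply Subtype.ext
    show (r • t) • u.1 = r • (t • u.1)
    rw [smul_assoc]⟩
  haveI : IsScalarTower T (T ⧸ I) U := ⟨by
    intro r s u
    obtain ⟨t, rfl⟩ := Ideal.Quotient.mk_surjective s
    have h1 : r • (Ideal.Quotient.mk I t) = Ideal.Quotient.mk I (r • t) := rfl
    rw [h1, hmk, hmk, smul_assoc]⟩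
  haveI : Module.Finite (T ⧸ I) U := Module.Finite.of_restrictScalars_finite T (T ⧸ I) U
  haveI : FaithfulSMul (T ⧸ I) U := ⟨by
    intro s s' h
    obtain ⟨t, rfl⟩ := Ideal.Quotient.mk_surjective s
    obtain ⟨t', rfl⟩ := Ideal.Quotient.mk_surjective s'
    rw [Ideal.Quotient.eq]
    show t - t' ∈ Module.annihilator T U
    rw [Module.mem_annihilator]
    intro u
    have := h u
    rw [hmk, hmk] at this
    rw [sub_smul, this, sub_self]⟩
  haveI : Algebra.FiniteType (ZMod 2) (T ⧸ I) :=
    Algebra.FiniteType.of_surjective (Ideal.Quotient.mkₐ (ZMod 2) I) (Ideal.Quotient.mkₐ_surjective (ZMod 2) I)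
  have hfield : ∀ m : Ideal R, m.IsMaximal → Finite (R ⧸ m) := by
    intro m hmax
    letI : Field (R ⧸ m) := Ideal.Quotient.field m
    haveI : Algebra.FiniteType (ZMod 2) (R ⧸ m) :=
      Algebra.FiniteType.of_surjective (Ideal.Quotient.mkₐ (ZMod 2) m) (Ideal.Quotient.mkₐ_surjective (ZMod 2) m)
    haveI : Module.Finite (ZMod 2) (R ⧸ m) := finite_of_finite_type_of_isJacobsonRing (ZMod 2) (R ⧸ m)
    exact Module.finite_of_finite (ZMod 2)
  refine hFINAL (T ⧸ I) ((Ideal.Quotient.mk I).comp ι) (algebraMap R (T ⧸ I) τ) ?_ ?_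
  · intro n x hx
    apply D.step7 hAAUN hIDEAL hk T ι hι x
    intro y hy
    have h1 : ((algebraMap R (T ⧸ I) τ) ^ n * ((Ideal.Quotient.mk I).comp ι) x) • (⟨_, hUX y hy⟩ : U) = 0 := by
      rw [hx, zero_smul]
    rw [← map_pow, ← Algebra.smul_def, smul_assoc] at h1
    have h2 : (τ ^ n) • (ι x • D.α (algebraMap FB KK y)) = 0 := congrArg Subtype.val h1
    rcases h0 _ _ h2 with h3 | h3
    · exact absurd h3 (pow_ne_zero n hτ)
    · exact h3
  · intro i
    refine hJAC R (T ⧸ I) U τ _ ?_
    intro m hmax hτm u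
    exact D.step6 hA1 hPURE hk R T ι hι U hU τ hgf m hmax hτm (hfield m hmax) (hm m hmax) i u

end Dat

theorem core (hA1 : S_A1) (hAAUN : S_AAUN) (hIDEAL : S_IDEAL) (hUNI : S_UNI) (hGF : S_GF)
    (hPURE : S_PURE) (hCHAIN : S_CHAIN) (hSER : S_SER) (hJAC : S_JAC) (hFINAL : S_FINAL) : S_CORE := by
  intro k V _ _ D R _ _ _ _ _ hk h0 hL hβ hm
  let ρ : B →* Module.End R V :=
    { toFun := fun b =>
        { toFun := fun v => D.β b v
          map_add' := fun v w => map_add _ v w
          map_smul' := fun r v => hβ b r v }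
      map_one' := by
        ext v
        show D.β 1 v = v
        rw [map_one]; rfl
      map_mul' := fun a b => by
        ext v
        show D.β (a * b) v = D.β a (D.β b v)
        rw [map_mul]; rfl }
  let φ : MonoidAlgebra R B →ₐ[R] Module.End R V := MonoidAlgebra.lift R (Module.End R V) B ρ
  letI : Module (MonoidAlgebra R B) V := Module.compHom V φ.toRingHom
  have hsm : ∀ (t : MonoidAlgebra R B) (v : V), t • v = φ t v := fun t v => rfl
  haveI : IsScalarTower R (MonoidAlgebra R B) V := ⟨fun r t v => by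
    rw [hsm, hsm, map_smul]; rfl⟩
  let ι : FB →ₐ[ZMod 2] MonoidAlgebra R B := MonoidAlgebra.lift (ZMod 2) (MonoidAlgebra R B) B (MonoidAlgebra.of R B)
  have hι : ∀ b, ι (eb b) = MonoidAlgebra.of R B b := fun b => MonoidAlgebra.lift_of _ _
  haveI : Algebra.FiniteType (ZMod 2) (MonoidAlgebra R B) :=
    Algebra.FiniteType.trans (S := R) inferInstance inferInstance
  refine D.core_abs hA1 hAAUN hIDEAL hUNI hGF hPURE hCHAIN hSER hJAC hFINAL hk R h0 hL hβ hm
    (MonoidAlgebra R B) ι.toRingHom ?_ ?_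
  · intro b v
    show ι (eb b) • v = _
    rw [hι, hsm, MonoidAlgebra.lift_of]
    rfl
  · intro t
    induction t using MonoidAlgebra.induction_on with
    | of b => exact Submodule.subset_span ⟨b, hι b⟩
    | add x y hx hy => exact add_mem hx hy
    | smul r x hx => exact Submodule.smul_mem _ _ hx

end Pool.Agent.H316.EM
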