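import Mathlib

/-!
# MP_e2f787 (S03350): definitions

A finitely generated (elementary abelian 2)-by-polycyclic group which is not a subgroup of `Aut M` for any
finitely generated metabelian group `M`.

`B = ℤ²` (multiplicative), `th` the Fibonacci automorphism `(x, y) ↦ (y, x + y)` of `B`, `FB = 𝔽₂[B]`,
`KK` its field of fractions, `B` acts on `KK` by multiplication and `tA` acts on `KK` by
`x ↦ (1 - e(1,0))⁻¹ · th(x)`. `AA` is the `⟨B, tA⟩`-submodule of `KK` generated by `1`; it is the ascending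
union of the `tA ^ n (FB)`.
-/

set_option autoImplicit false

namespace Pool.Agent.H316.EM

abbrev B := Multiplicative (ℤ × ℤ)

abbrev FB := MonoidAlgebra (ZMod 2) B

instance : Fact (Nat.Prime 2) := ⟨Nat.prime_two⟩

/-- the group of additive automorphisms of a vector space over the field with two elements -/
abbrev Au (V : Type) [AddCommGroup V] [Module (ZMod 2) V] := V ≃ₗ[ZMod 2] V

/-- the Fibonacci automorphism `(x, y) ↦ (y, x + y)` of `ℤ²` -/
def thAdd : (ℤ × ℤ) ≃+ (ℤ × ℤ) where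
  toFun p := (p.2, p.1 + p.2)
  invFun p := (p.2 - p.1, p.1)
  left_inv p := by ext <;> simp
  right_inv p := by ext <;> simp
  map_add' p q := by
    ext
    · simp
    · simp only [Prod.snd_add, Prod.fst_add]; ring

/-- the Fibonacci automorphism of `B` -/
def th : MulAut B := AddEquiv.toMultiplicative thAdd

/-- the basis elements of `FB` -/
noncomputable def eb (b : B) : FB := MonoidAlgebra.of (ZMod 2) B b

theorem eb_one : eb 1 = 1 := map_one (MonoidAlgebra.of (ZMod 2) B)

theorem eb_mul (a b : B) : eb (a * b) = eb a * eb b := map_mul (MonoidAlgebra.of (ZMod 2) B) a b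

/-- the ring automorphism of `FB` induced by an automorphism of `B` -/
noncomputable def rF (φ : MulAut B) : FB ≃+* FB :=
  (MonoidAlgebra.domCongr (ZMod 2) (ZMod 2) φ).toRingEquiv

theorem rF_eb (φ : MulAut B) (b : B) : rF φ (eb b) = eb (φ b) := by
  simp [rF, eb]

abbrev KK := FractionRing FB

noncomputable def rK (φ : MulAut B) : KK ≃+* KK := IsFractionRing.ringEquivOfRingEquiv (rF φ)

theorem rK_algebraMap (φ : MulAut B) (x : FB) : rK φ (algebraMap FB KK x) = algebraMap FB KK (rF φ x) := by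
  simp [rK]

/-- `(1, 0)` -/
def b0 : B := Multiplicative.ofAdd (1, 0)

/-- `1 - e(θ^i (1,0))` -/
noncomputable def ck (i : ℕ) : FB := 1 - eb ((th ^ i) b0)

/-- multiplication by a nonzero element of the field -/
noncomputable def mulK (c : KK) (hc : c ≠ 0) : Au KK where
  toFun x := c * x
  invFun x := c⁻¹ * x
  left_inv x := by
    show c⁻¹ * (c * x) = x
    rw [← mul_assoc, inv_mul_cancel₀ hc, one_mul]
  right_inv x := by
    show c * (c⁻¹ * x) = x
    rw [← mul_assoc, mul_inv_cancel₀ hc, one_mul]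
  map_add' x y := mul_add c x y
  map_smul' r x := by
    show c * (r • x) = r • (c * x)
    rw [mul_smul_comm]

theorem eb_ne_zero (b : B) : eb b ≠ 0 := by
  intro h
  have h1 : MonoidAlgebra.single b (1 : ZMod 2) = 0 := h
  rw [MonoidAlgebra.single_eq_zero] at h1
  exact one_ne_zero h1

theorem eb_ne (b : B) : algebraMap FB KK (eb b) ≠ 0 := by
  rw [Ne, IsFractionRing.to_map_eq_zero_iff]
  exact eb_ne_zero b

/-- the action of `B` on `KK` by multiplication -/
noncomputable def mB : B →* Au KK where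
  toFun b := mulK (algebraMap FB KK (eb b)) (eb_ne b)
  map_one' := by
    ext x
    show algebraMap FB KK (eb 1) * x = x
    rw [eb_one, map_one, one_mul]
  map_mul' a b := by
    ext x
    show algebraMap FB KK (eb (a * b)) * x = algebraMap FB KK (eb a) * (algebraMap FB KK (eb b) * x)
    rw [← mul_assoc, ← map_mul, eb_mul]

theorem mB_apply (b : B) (x : KK) : mB b x = algebraMap FB KK (eb b) * x := rfl

theorem eb_injective : Function.Injective eb := MonoidAlgebra.of_injective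

theorem ck_ne_zero (i : ℕ) : ck i ≠ 0 := by
  intro h
  rw [ck, sub_eq_zero] at h
  have h1 : eb 1 = eb ((th ^ i) b0) := by
    rw [← h, eb_one]
  have h2 := eb_injective h1
  have h3 : b0 = 1 := by
    apply (th ^ i).injective
    rw [← h2, map_one]
  have : ((1 : ℤ), (0 : ℤ)) = (0, 0) := congrArg Multiplicative.toAdd h3
  simp at this

theorem ck_ne (i : ℕ) : algebraMap FB KK (ck i) ≠ 0 := by
  rw [Ne, IsFractionRing.to_map_eq_zero_iff]
  exact ck_ne_zero i

/-- a ring automorphism of `KK` as a linear map over the field with two elements -/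
noncomputable def linK (r : KK ≃+* KK) : Au KK where
  toFun x := r x
  invFun x := r.symm x
  left_inv x := r.symm_apply_apply x
  right_inv x := r.apply_symm_apply x
  map_add' x y := map_add r x y
  map_smul' c x := ZMod.map_smul r.toAddMonoidHom c x

/-- the twisted action of `t`: `x ↦ (1 - e(1,0))⁻¹ · th(x)` -/
noncomputable def tA : Au KK :=
  (mulK (algebraMap FB KK (ck 0))⁻¹ (inv_ne_zero (ck_ne 0))) * linK (rK th)

theorem tA_apply (x : KK) : tA x = (algebraMap FB KK (ck 0))⁻¹ * rK th x := rfl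

/-- the image of `FB` in `KK` -/
noncomputable def FBK : Submodule (ZMod 2) KK := LinearMap.range (Algebra.linearMap FB KK |>.restrictScalars (ZMod 2))

theorem mem_FBK (x : KK) : x ∈ FBK ↔ ∃ y : FB, algebraMap FB KK y = x := Iff.rfl

/-- the module `A = ⋃ tA ^ n (FB)` (an ascending union) -/
noncomputable def AA : Submodule (ZMod 2) KK := ⨆ n : ℕ, FBK.map ((tA ^ n : Au KK) : KK →ₗ[ZMod 2] KK)

/-- `A₁` has finite index in `A₂` -/
def Fi {V : Type} [AddCommGroup V] [Module (ZMod 2) V] (A₁ A₂ : Submodule (ZMod 2) V) : Prop :=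
  A₁.toAddSubgroup.relIndex A₂.toAddSubgroup ≠ 0

/-- A datum: a finitely generated module `V` over a finitely generated abelian group `L` of
automorphisms, normalized by an action of `⟨B, t⟩` (`t` stands for the `k`-th power of the automorphism `th`),
together with an equivariant homomorphism `α` with infinite image from a submodule of finite index in `AA`. -/
structure Dat (k : ℕ) (V : Type) [AddCommGroup V] [Module (ZMod 2) V] where
  L : Subgroup (Au V)
  Lfg : L.FG
  Lcomm : ∀ x ∈ L, ∀ y ∈ L, x * y = y * x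
  β : B →* Au V
  t : Au V
  tβ : ∀ b, t * β b * t⁻¹ = β ((th ^ k) b)
  Lβ : ∀ b, ∀ l ∈ L, β b * l * (β b)⁻¹ ∈ L
  Lt : ∀ l, l ∈ L ↔ t * l * t⁻¹ ∈ L
  fg : ∃ S : Finset V, Submodule.span (ZMod 2) {x : V | ∃ l ∈ L, ∃ s ∈ S, x = l s} = ⊤
  A₀ : Submodule (ZMod 2) KK
  A₀le : A₀ ≤ AA
  A₀fin : Fi A₀ AA
  A₀β : ∀ b, ∀ a ∈ A₀, mB b a ∈ A₀
  A₀t : ∀ a, a ∈ A₀ ↔ (tA ^ k) a ∈ A₀
  α : KK → V
  αadd : ∀ a ∈ A₀, ∀ a' ∈ A₀, α (a + a') = α a + α a'
  αβ : ∀ b, ∀ a ∈ A₀, α (mB b a) = β b (α a)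
  αt : ∀ a ∈ A₀, α ((tA ^ k) a) = t (α a)
  inf : (α '' A₀).Infinite

namespace Dat
variable {k : ℕ} {V : Type} [AddCommGroup V] [Module (ZMod 2) V]

theorem αzero (D : Dat k V) : D.α 0 = 0 := by
  have := D.αadd 0 D.A₀.zero_mem 0 D.A₀.zero_mem
  rw [add_zero] at this
  exact left_eq_add.1 this

theorem αsmul (D : Dat k V) (c : ZMod 2) (a : KK) : D.α (c • a) = c • D.α a := by
  rcases (by decide : ∀ c : ZMod 2, c = 0 ∨ c = 1) c with rfl | rfl
  · rw [zero_smul, zero_smul, D.αzero]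
  · rw [one_smul, one_smul]

/-- the preimage of a subgroup -/
def pre (D : Dat k V) (Y : Submodule (ZMod 2) V) : Submodule (ZMod 2) KK where
  carrier := {a | a ∈ D.A₀ ∧ D.α a ∈ Y}
  zero_mem' := ⟨D.A₀.zero_mem, by rw [D.αzero]; exact Y.zero_mem⟩
  add_mem' := by
    rintro a b ⟨ha, ha'⟩ ⟨hb, hb'⟩
    exact ⟨D.A₀.add_mem ha hb, by rw [D.αadd a ha b hb]; exact Y.add_mem ha' hb'⟩
  smul_mem' := by
    rintro c a ⟨ha, ha'⟩
    exact ⟨D.A₀.smul_mem c ha, by rw [D.αsmul]; exact Y.smul_mem c ha'⟩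

theorem mem_pre (D : Dat k V) (Y : Submodule (ZMod 2) V) (a : KK) :
    a ∈ D.pre Y ↔ a ∈ D.A₀ ∧ D.α a ∈ Y := Iff.rfl

/-- subgroups stable under `L`, `B` and the `j`-th power of `t` -/
def Stb (D : Dat k V) (j : ℕ) (Y : Submodule (ZMod 2) V) : Prop :=
  (∀ l ∈ D.L, ∀ y ∈ Y, l y ∈ Y) ∧ (∀ b, ∀ y ∈ Y, D.β b y ∈ Y) ∧ (∀ y, y ∈ Y ↔ (D.t ^ j) y ∈ Y)

/-- every nonzero stable subgroup contains the image of a subgroup of finite index -/
def JI (D : Dat k V) : Prop :=
  ∀ j : ℕ, 0 < j → ∀ Y : Submodule (ZMod 2) V, D.Stb j Y → Y ≠ ⊥ → Fi (D.pre Y) AA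

/-- an element of `L` of finite order on a nonzero stable subgroup has finite order -/
def LT (D : Dat k V) : Prop :=
  ∀ j : ℕ, 0 < j → ∀ Y : Submodule (ZMod 2) V, D.Stb j Y → Y ≠ ⊥ → ∀ l ∈ D.L,
    (∃ n : ℕ, 0 < n ∧ ∀ y ∈ Y, (l ^ n) y = y) → ∃ n : ℕ, 0 < n ∧ l ^ n = 1

end Dat

end Pool.Agent.H316.EM
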