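import Pool.Agent.H316.EM.Defs
import Pool.Graph.R_pool_sql_team_seeded_1acbe0a2.Y45.HM.GenFree

/-!
# MP_e2f787 (S03350): statements of the lemmas

Every lemma is a `Prop` with a paper proof in its docstring.
-/

set_option autoImplicit false

namespace Pool.Agent.H316.EM

open Pool.Agent.Y45.HM (GF)
open Pool.Agent.Helper294.HallC (Ser)

/-- **A1.** Finite quotients of `AA`. `C ≤ AA` of finite index, stable under `B` and `tA ^ k`; then every
`1 - e(θ^i(1,0))` acts injectively on the finite group `AA / C`.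

Proof. `FBK ≤ tA FBK` (for `y ∈ FB`: `y = tA (θ⁻¹ (ck 0 · y))`), so the `tA ^ n FBK` are ascending and
`AA` is their union; `AA` is stable under `mB b`, `tA`, `tA⁻¹`. As `C` is an `FB`-module stable under `tA ^ k`
(in both directions) `tA ^ k` induces a bijection of `AA / C`, which maps the image `X₀` of `FBK` onto the image
of `tA ^ k FBK ⊇ FBK`; as `AA / C` is finite, `FBK + C = tA ^ k FBK + C`, hence `FBK + C = tA ^ (k n) FBK + C` for all
`n`, hence `FBK + C = AA`. Put `g = ck 0 * ck 1 * ... * ck (k - 1)`; then `g · tA ^ k y = rK (th ^ k) y` for all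
`y ∈ KK` (induction), so `g · tA ^ k FBK = FBK` and multiplication by `g` maps `AA = tA ^ k FBK + C` onto
`AA` modulo `C`: it is surjective, hence injective on the finite group `AA / C`. If `i < k` and `ck i · a ∈ C`, then
`g · a ∈ C` (`C` is an `FB`-module), so `a ∈ C`. For general `i` replace `k` by `k * (i + 1)`. -/
def S_A1 : Prop := ∀ k : ℕ, 0 < k → ∀ C : Submodule (ZMod 2) KK, C ≤ AA → Fi C AA →
  (∀ b, ∀ a ∈ C, mB b a ∈ C) → (∀ a, a ∈ C ↔ (tA ^ k) a ∈ C) →
  ∀ (i : ℕ) (a : KK), a ∈ AA → algebraMap FB KK (ck i) * a ∈ C → a ∈ C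

/-- **AAun.** `AA` is the ascending union of the `tA ^ n FBK`, and is stable. -/
def S_AAUN : Prop :=
  (∀ x, x ∈ AA ↔ ∃ n : ℕ, ∃ y ∈ FBK, x = (tA ^ n) y) ∧ (∀ y ∈ FBK, tA⁻¹ y ∈ FBK) ∧
  (∀ b, ∀ a ∈ AA, mB b a ∈ AA) ∧ (∀ a, a ∈ AA ↔ tA a ∈ AA) ∧
  (∀ b, tA * mB b * tA⁻¹ = mB (th b))

/-- **IDEAL.** A nonzero ideal of `𝔽₂[ℤ²]` which is mapped into itself by a power of the Fibonacci
automorphism has finite index.

Proof. `FB` is Noetherian and `rF (th ^ k)` is an automorphism, so `rF (th ^ k) J = J`. Suppose `FB / J` is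
infinite. Then (finite type algebra over a finite field, infinite: not Artinian) there is a non-maximal prime
`𝔮 ⊇ J`; take a minimal prime `𝔮₀` of `J` below it, again not maximal. The automorphism permutes the finitely
many minimal primes of `J`, so `rF (th ^ m) 𝔮₀ = 𝔮₀` for some `m > 0`, and `𝔮₀ ≠ 0` as `J ≠ 0`. `FB` is a localization of
`𝔽₂[x, y]`, which is a UFD of Krull dimension 2 (`MvPolynomial.ringKrullDim...`), so a nonzero non-maximal prime
`𝔮₀` of `FB` is principal: the contraction to `𝔽₂[x,y]` contains a prime element `π`, and `0 < (π) < 𝔮 < max` would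
be too long a chain. So `𝔮₀ = (π)` and `rF (th ^ m) π = u π` with a unit `u` of `FB`. For a homomorphism
`ξ : ℤ² → ℤ` let `w_ξ(f) = max ξ (supp f) - min ξ (supp f)` (`f ≠ 0`); it is additive on products (look at the extreme
terms; `FB` is a domain), hence `w_ξ(u) = 0` for units, so `w_ξ (rF (th ^ (m n)) π) = w_ξ(π)` for all `n`, i.e. the
differences of elements of `θ ^ (m n) (supp π)` have bounded `ξ`-values for all `n` and for `ξ` = both coordinates.
If `supp π` has two different elements, their difference `v ≠ 0` has a finite orbit under `θ ^ m`, so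
`θ ^ M v = v` for some `M > 0`, which is impossible since `θ ^ M - 1` is invertible over `ℚ`
(its determinant is `1 + (-1)^M - Lucas(M) ≠ 0`; or: Fibonacci recurrences do not have nonzero periodic integer
solutions). So `π` is a monomial, a unit: contradiction. -/
def S_IDEAL : Prop := ∀ k : ℕ, 0 < k → ∀ J : Ideal FB, (∀ x ∈ J, rF (th ^ k) x ∈ J) → J ≠ ⊥ →
  Finite (FB ⧸ J)

/-- **UNI.** (Lie-Kolchin-Malcev for `ℤ² ⋊ ⟨θ^k⟩`.) If `B ⋊ ⟨θ^k⟩` acts on a finitely generated abelian group `L`,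
then the `N`-th powers of elements of `B` act unipotently, for some `N > 0`.

Proof. Write `L` additively, `E` = the (commutative, finite dimensional) `ℚ`-subalgebra of `End (L ⊗ ℚ)` generated
by the `ρ b`. Conjugation by `τ` is a `ℚ`-algebra automorphism `c` of `E` with `c (ρ b) = ρ (θ^k b)`. The set of
`ℚ`-algebra homomorphisms `σ : E → ℂ` (or the algebraic closure of `ℚ`) is finite and `σ ↦ σ ∘ c` permutes it, so
`σ ∘ c ^ m = σ` for all `σ`, for some `m > 0`. So `σ (ρ (θ^{km} b) (ρ b)⁻¹ - 1) = 0` for all `σ`, i.e.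
`ρ (θ^{km} b / b) - 1` is nilpotent (an element of a finite dimensional commutative algebra which is killed by all
homomorphisms to the algebraic closure is nilpotent), for all `b`. The subgroup
`{θ^{km} b / b}` of `B` has finite index (`det (θ^M - 1) ≠ 0` for `M > 0`), so it contains all `N₁`-th powers. So for all
`b` the element `ρ (b ^ N₁) - 1` is nilpotent on `L ⊗ ℚ`, i.e. `(ρ (b ^ N₁) - 1) ^ c` maps `L` to its torsion subgroup `T`,
which is finite (`c` = rank of `L`). Let `N = N₁ * |Aut T|`; then `ρ (b ^ N)` is the identity on `T` and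
`(ρ (b ^ N) - 1) ^ c` still maps `L` into `T` (`x - 1` divides `x ^ n - 1`), so `(ρ (b ^ N) - 1) ^ (c + 1) = 0` on `L`. -/
def S_UNI : Prop := ∀ (L : Type) [CommGroup L] [Group.FG L] (ρ : B →* MulAut L) (τ : MulAut L) (k : ℕ),
  0 < k → (∀ b, τ * ρ b * τ⁻¹ = ρ ((th ^ k) b)) →
  ∃ N c : ℕ, 0 < N ∧ ∀ (b : B) (l : L), (fun x => ρ (b ^ N) x / x)^[c] l = 1

/-- chains of subgroups with cyclic factors -/
inductive Chn {Γ : Type} [Group Γ] (K₀ : Subgroup Γ) : Subgroup Γ → Prop
  | base : Chn K₀ K₀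
  | step (R K : Subgroup Γ) (t : Γ) : Chn K₀ R → R ≤ K → t ∈ K → (∀ x, x ∈ R ↔ t * x * t⁻¹ ∈ R) →
      (∀ x ∈ K, ∃ k : ℤ, t ^ (-k) * x ∈ R) → Chn K₀ K

/-- **GF.** P. Hall's generic freeness, relative version. `J` a Noetherian domain, `K₀ ≤ K` a chain with cyclic
factors starting with a group `K₀` with a cyclic series; `A` finitely generated over `J` and `K`, `U` the
`J`-submodule generated by the `K₀`-translates of a finite set. Then `A / U` is generically free.

Proof. Library module `Pool.Graph.R_pool_sql_team_seeded_1acbe0a2.Y45.HM.GenFree`: theorem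
`gen_free` is the case of sections `X ≤ Y` with `X` stable under the whole group. Induction on the chain: for a step
`R ≤ K` with `t`, let `N` = `J`-span of `R · F₀`, `Y` = `J`-span of `K · F₀`; show `GF τ N Y` for some `τ ≠ 0` by copying the proof
of `gen_free`: with `X = ⊥`, `Sq t ⊥ N n` = `N + tN + ... + t^(n-1) N`; `L n := N ⊓ tr (t ^ n)⁻¹ (Sq t ⊥ N n)` is
an increasing sequence of `R`-stable submodules of `N`, so it stabilizes (`FGS.noe`), `gen_free` for `R` gives
`GF τ₁ (L n) N` for all `n` with one `τ₁`, hence `GF τ₁ (Sq (n+1)) (Sq (n+2))` (`GF.trans_tr`), hence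
`GF τ₁ N (⨆ n, Sq n)` by `GF.chain`; the negative powers of `t` are treated as in `gen_free`. So along the chain
`GF τ U (J-span of K · F₀)`, and `gen_free` for `K` with `X` = `J`-span of `K · F₀`, `Y = ⊤` finishes the proof (`GF.trans`).
(`Ser` for all groups of the chain follows from `Ser s K₀`.) -/
def S_GF : Prop := ∀ (J Γ A : Type) [CommRing J] [IsDomain J] [IsNoetherianRing J] [Group Γ]
  [AddCommGroup A] [Module J A] [DistribMulAction Γ A] [SMulCommClass Γ J A] (K₀ K : Subgroup Γ)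
  (s : ℕ), Ser s K₀ → Chn K₀ K → ∀ F₀ F : Finset A,
  Submodule.span J {a : A | ∃ g ∈ K, ∃ x ∈ (F : Set A), a = g • x} = ⊤ →
  ∃ τ : J, τ ≠ 0 ∧ GF τ (Submodule.span J {a : A | ∃ g ∈ K₀, ∃ x ∈ (F₀ : Set A), a = g • x}) ⊤

/-- **PURE.** If `A / U` is free after inverting `τ` and `τ ∉ m`, then `U ∩ mA = mU`.

Proof. `u = ∑ μ_j y_j` (`μ_j ∈ m`). With a common `k`: `τ^k y_j = lc l_j + u_j` with `l_j` supported in the basis,
`u_j ∈ U`. Then `lc (∑ μ_j l_j) = τ^k u - ∑ μ_j u_j ∈ U`, so `∑ μ_j l_j = 0` and `τ^k u = ∑ μ_j u_j ∈ mU`. As `m` is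
maximal and `τ ∉ m` there are `c` and `μ ∈ m` with `c τ^k + μ = 1`, so `u = c τ^k u + μ u ∈ mU`. -/
def S_PURE : Prop := ∀ (J A : Type) [CommRing J] [AddCommGroup A] [Module J A] (τ : J)
  (U : Submodule J A), GF τ U ⊤ → ∀ m : Ideal J, m.IsMaximal → τ ∉ m →
  ∀ u ∈ U, u ∈ m • (⊤ : Submodule J A) → u ∈ m • U

/-- **CHAIN.** `L` a finitely generated commutative subgroup normalized by `β B`, which acts unipotently on it by
conjugation; then there is a chain with cyclic factors from `β B` to `L β B`.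

Proof. Consider the subgroups `Λ ≤ L` normalized by `β B` with `Chn β.range (Λ ⊔ β.range)`; `⊥` is one. Subgroups of a
finitely generated commutative group satisfy the ascending chain condition, so there is a maximal `Λ`. If `Λ ≠ L`, let
`l ∈ L`, `l ∉ Λ`; the operators `δ_b x = β b x (β b)⁻¹ x⁻¹` (`b = (1,0), (0,1)`) are commuting nilpotent
endomorphisms of `L / Λ`, so applying them to `l` as long as the result is not in `Λ` one finds `l ∈ L`, `l ∉ Λ` with
`δ_b l ∈ Λ` for `b = (1,0), (0,1)`, hence `δ_b l ∈ Λ` for all `b`. Let `Λ' = Λ ⊔ ⟨l⟩` (normalized by `β B`); then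
`l (β b) l⁻¹ = (β b) ((β b)⁻¹ l (β b) l⁻¹) ∈ β B Λ`, so `l` normalizes `Λ ⊔ β.range` and
`Λ' ⊔ β.range = ⋃ l^k (Λ ⊔ β.range)`. -/
def S_CHAIN : Prop := ∀ (Γ : Type) [Group Γ] (L : Subgroup Γ), L.FG →
  (∀ x ∈ L, ∀ y ∈ L, x * y = y * x) → ∀ β : B →* Γ, (∀ b, ∀ l ∈ L, β b * l * (β b)⁻¹ ∈ L) →
  ∀ c : ℕ, (∀ b, ∀ l ∈ L, (fun x => β b * x * (β b)⁻¹ * x⁻¹)^[c] l = 1) →
  Chn β.range (L ⊔ β.range)

/-- **SER.** The image of `B = ℤ²` has a series of length two with cyclic factors. -/
def S_SER : Prop := ∀ (Γ : Type) [Group Γ] (β : B →* Γ), Ser 2 β.range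

/-- **JAC.** `S` a finitely generated `𝔽₂`-algebra, `U` a finitely generated faithful `S`-module, `f ∈ R`, `g ∈ S`
with `U = gU + mU` for all maximal ideals `m` of `R` with `f ∉ m`. Then `f` is in the radical of `gS`.

Proof. `S` is a Jacobson ring: if `f` is not in the radical of `gS`, there is a maximal ideal `𝔫` of `S` with
`g ∈ 𝔫`, `f ∉ 𝔫`. `S / 𝔫` is a field which is finitely generated as an `𝔽₂`-algebra, hence finite, so `R / (𝔫 ∩ R)` is a
finite domain, a field: `m := 𝔫 ∩ R` is maximal, `f ∉ m`. So `U = gU + mU ⊆ 𝔫U`. By Nakayama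
(`Submodule.exists_sub_one_mem_and_smul_eq_zero_of_fg_of_le_smul`) there is `e ∈ S` with `e - 1 ∈ 𝔫`, `eU = 0`, so `e = 0`
and `1 ∈ 𝔫`: contradiction. -/
def S_JAC : Prop := ∀ (R S U : Type) [CommRing R] [CommRing S] [Algebra (ZMod 2) S]
  [Algebra.FiniteType (ZMod 2) S] [Algebra R S] [AddCommGroup U] [Module R U] [Module S U]
  [IsScalarTower R S U] [Module.Finite S U] [FaithfulSMul S U] (f : R) (g : S),
  (∀ m : Ideal R, m.IsMaximal → f ∉ m →
    ∀ u : U, ∃ u' : U, ∃ w ∈ m • (⊤ : Submodule R U), u = g • u' + w) →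
  algebraMap R S f ∈ (Ideal.span {g}).radical

/-- **FINAL.** There is no finitely generated commutative `𝔽₂`-algebra `S` with a homomorphism `ι : FB → S` and
`f ∈ S` such that `f ^ n ι(x) = 0` only for `x = 0`, and `f ∈ √(ι(ck i) S)` for all `i`.

Proof. The multiplicative set `{f ^ n ι(x) : x ≠ 0}` does not contain `0`, so there is a prime `𝔮` of `S` which
does not meet it. Let `S' = (S / 𝔮)[1/f]`, a finitely generated domain over `FB`, `FB → S'` injective. By Chevalley
(or generic flatness, or generic Noether normalization) there is `0 ≠ h ∈ FB` such that every prime `𝔭` of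
`FB` with `h ∉ 𝔭` is the contraction of a prime of `S'`. For each `i` the ideal
`𝔭_i = (ck i)` = kernel of `𝔽₂[B] → 𝔽₂[B / ⟨θ^i(1,0)⟩]` is prime (`B / ⟨θ^i(1,0)⟩ ≅ ℤ`). If `h ∉ 𝔭_i`, then a prime `𝔔` of `S'`
over `𝔭_i` contains `ck i`, hence `f`, which is a unit of `S'`: contradiction. So `h ∈ 𝔭_i` for all `i`, i.e. the image of `h` in
`𝔽₂[B / ⟨β_i⟩]`, `β_i = θ^i(1,0)`, is zero. As `h ≠ 0` this gives `s ≠ s'` in `supp h` with `s - s' = n β_i`, `n ≠ 0`; but `supp h`
is finite and the second coordinate of `β_i` is the Fibonacci number `F_i → ∞`: contradiction for large `i`.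
(It suffices to use: `h ∈ 𝔭_i` implies the last statement, and `𝔭_i` prime.) -/
def S_FINAL : Prop := ∀ (S : Type) [CommRing S] [Algebra (ZMod 2) S] [Algebra.FiniteType (ZMod 2) S]
  (ι : FB →+* S) (f : S), (∀ (n : ℕ) (x : FB), f ^ n * ι x = 0 → x = 0) →
  (∀ i : ℕ, f ∈ (Ideal.span {ι (ck i)}).radical) → False

/-- **FIX.** A unipotent action of `B` on an infinite finitely generated abelian group has a fixed element of infinite
order.

Proof. Let `T` be the (finite) torsion subgroup, `L / T ≠ 0` torsion-free; the operators `δ_b x = ρ b x / x` are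
commuting nilpotent endomorphisms of `L / T` so they have a common zero `z T ≠ T` (apply `δ_{(1,0)}`, `δ_{(0,1)}` as long as
possible). So `ρ b z = z τ_b` with `τ_b ∈ T`, and `z ^ |T|` is fixed; it has infinite order. -/
def S_FIX : Prop := ∀ (L : Type) [CommGroup L] [Group.FG L] [Infinite L] (ρ : B →* MulAut L) (c : ℕ),
  (∀ (b : B) (l : L), (fun x => ρ b x / x)^[c] l = 1) →
  ∃ z : L, (∀ b, ρ b z = z) ∧ ∀ n : ℕ, 0 < n → z ^ n ≠ 1

/-- **ART.** Invariants (Emmy Noether / Artin-Tate). `E` a finitely generated commutative `𝔽₂`-algebra on which `B` acts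
through `B / B^N`. The ring `R` of invariants is a finitely generated algebra and `E` is integral over it.

Proof. `e ∈ E` is a root of the monic polynomial `∏ (X - φ(b) e)` over the finitely many distinct automorphisms
`φ b` (`b = (i, j)` with `0 ≤ i, j < N`), which has coefficients in `R`. `E` is finitely generated as an algebra and
integral over `R`, so it is a finite `R`-module, and `R` is finitely generated by the Artin-Tate lemma (`fg_of_fg_of_fg`). -/
def S_ART : Prop := ∀ (E : Type) [CommRing E] [Algebra (ZMod 2) E] [Algebra.FiniteType (ZMod 2) E]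
  (φ : B →* (E ≃ₐ[ZMod 2] E)) (N : ℕ), 0 < N → (∀ b, φ (b ^ N) = 1) →
  ∀ R : Subalgebra (ZMod 2) E, (∀ e, e ∈ R ↔ ∀ b, φ b e = e) →
  Algebra.FiniteType (ZMod 2) R ∧ ∀ e : E, IsIntegral R e

/-- **ANN.** `R` a commutative Noetherian ring, `V ≠ 0` an `R`-module with an action of a group `Γ` commuting with `R` such
that the `Γ`-stable `R`-submodules satisfy the ascending chain condition, `t` a `σ`-semilinear automorphism of
`V`. There is a prime `P` with `σ ^ j P = P` for some `j > 0` which is the annihilator of a nonzero element, and such that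
every nonzero element killed by `P` has annihilator `P`.

Proof. Let `P` be maximal among the annihilators of the nonzero elements of `V`; `P` is prime, and every nonzero `v`
with `Pv = 0` has annihilator `P`. The same holds for `P_i = σ ^ i P` (`i : ℕ`; annihilator of `t ^ i v`). Suppose that the `P_i` are
pairwise different. They are pairwise incomparable (maximality). Put `V_i = {v : P_i v = 0} ≠ 0`, a `Γ`-stable
submodule. Then `V_n ∩ (V_0 + ... + V_{n-1}) = 0`: in a shortest nontrivial relation `v_{i_1} + ... + v_{i_s} = 0`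
(`s ≥ 2`, all terms nonzero) multiply by `e ∈ P_{i_1}`, `e ∉ P_{i_2}`: a shorter nontrivial relation. So the
`V_0 + ... + V_n` are strictly increasing: contradiction. So `P_i = P_j` for some `i < j` and `σ ^ (j - i) P = P`. -/
def S_ANN : Prop := ∀ (R V Γ : Type) [CommRing R] [IsNoetherianRing R] [AddCommGroup V] [Module R V]
  [Nontrivial V] [Group Γ] [DistribMulAction Γ V] [SMulCommClass Γ R V],
  (∀ f : ℕ → Submodule R V, Monotone f → (∀ n, ∀ g : Γ, ∀ x ∈ f n, g • x ∈ f n) →
    ∃ n, ∀ m, n ≤ m → f m = f n) →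
  ∀ (σ : R ≃+* R) (t : V ≃+ V), (∀ (r : R) (v : V), t (r • v) = σ r • t v) →
  ∃ P : Ideal R, P.IsPrime ∧ (∃ j : ℕ, 0 < j ∧ ∀ r, r ∈ P ↔ (σ ^ j) r ∈ P) ∧
    (∃ v : V, v ≠ 0 ∧ ∀ r ∈ P, r • v = 0) ∧
    ∀ v : V, v ≠ 0 → (∀ r ∈ P, r • v = 0) → ∀ r : R, r • v = 0 → r ∈ P

/-- **ORB.** Maximal ideals of finitely generated `𝔽₂`-algebras have finite orbits under automorphisms.

Proof. `F = R / m` is a field, finitely generated as an `𝔽₂`-algebra, hence finite; there are only finitely many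
ring homomorphisms `R → F`, so `π ∘ σ ^ i = π ∘ σ ^ j` for some `i < j`. -/
def S_ORB : Prop := ∀ (R : Type) [CommRing R] [Algebra (ZMod 2) R] [Algebra.FiniteType (ZMod 2) R]
  (σ : R ≃+* R) (m : Ideal R), m.IsMaximal → ∃ j : ℕ, 0 < j ∧ ∀ r, r ∈ m ↔ (σ ^ j) r ∈ m

/-- **ACC.** Ascending chain condition for the `L`-stable subgroups.

Proof. Library `Pool.Agent.Y45.HM.FGS.noe` with `J = ZMod 2`, `Γ = Au V`, `K = D.L` (a finitely generated commutative group has a
cyclic series), or: `V` is a finitely generated module over the Noetherian ring `MonoidAlgebra (ZMod 2) D.L`. -/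
def S_ACC : Prop := ∀ (k : ℕ) (V : Type) [AddCommGroup V] [Module (ZMod 2) V] (D : Dat k V)
  (f : ℕ → Submodule (ZMod 2) V), Monotone f → (∀ n, ∀ l ∈ D.L, ∀ x ∈ f n, l x ∈ f n) →
  ∃ n, ∀ m, n ≤ m → f m = f n

/-- **SUB.** Restriction of a datum to a stable subgroup `Y` such that the preimage of `Y` has finite index.

Proof. `L'` = restrictions of the elements of `L`, `t'` = restriction of `t ^ j`, `A₀' = D.pre Y`,
`α' a = ⟨α a, _⟩` if `α a ∈ Y` and `0` otherwise. `Y` is finitely generated over `L` by ACC. The image of `α'` is infinite: `D.pre Y` has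
finite index in `AA`, so in `A₀`; if `α (pre Y)` were finite, then `α A₀` would be finite. -/
def S_SUB : Prop := ∀ (k : ℕ) (V : Type) [AddCommGroup V] [Module (ZMod 2) V] (D : Dat k V) (j : ℕ),
  0 < j → ∀ Y : Submodule (ZMod 2) V, D.Stb j Y → Fi (D.pre Y) AA →
  ∃ D' : Dat (k * j) Y, D'.A₀ = D.pre Y ∧ (∀ a ∈ D.pre Y, (D'.α a : V) = D.α a) ∧
    (∀ b (y : Y), (D'.β b y : V) = D.β b y) ∧ (∀ y : Y, (D'.t y : V) = (D.t ^ j) y) ∧
    (∀ l' ∈ D'.L, ∃ l ∈ D.L, ∀ y : Y, (l' y : V) = l y) ∧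
    (∀ l ∈ D.L, ∃ l' ∈ D'.L, ∀ y : Y, (l' y : V) = l y)

/-- **QUO.** Quotient of a datum by a stable subgroup `X` such that the preimage of `X` has infinite index. -/
def S_QUO : Prop := ∀ (k : ℕ) (V : Type) [AddCommGroup V] [Module (ZMod 2) V] (D : Dat k V) (j : ℕ),
  0 < j → ∀ X : Submodule (ZMod 2) V, D.Stb j X → ¬ Fi (D.pre X) AA →
  ∃ D' : Dat (k * j) (V ⧸ X), D'.A₀ = D.A₀ ∧ (∀ a, D'.α a = X.mkQ (D.α a)) ∧
    (∀ b (v : V), D'.β b (X.mkQ v) = X.mkQ (D.β b v)) ∧ (∀ v : V, D'.t (X.mkQ v) = X.mkQ ((D.t ^ j) v)) ∧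
    (∀ l' ∈ D'.L, ∃ l ∈ D.L, ∀ v : V, l' (X.mkQ v) = X.mkQ (l v)) ∧
    (∀ l ∈ D.L, ∃ l' ∈ D'.L, ∀ v : V, l' (X.mkQ v) = X.mkQ (l v))

/-- the subgroup generated by the `r v`, `r ∈ m` -/
def mv {R : Type} (V : Type) [CommRing R] [AddCommGroup V] [Module (ZMod 2) V] [Module R V]
    (m : Ideal R) : Submodule (ZMod 2) V :=
  Submodule.span (ZMod 2) {x : V | ∃ r ∈ m, ∃ v : V, x = r • v}

/-- **CORE.** The final contradiction. -/
def S_CORE : Prop := ∀ (k : ℕ) (V : Type) [AddCommGroup V] [Module (ZMod 2) V] (D : Dat k V) (R : Type)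
  [CommRing R] [IsDomain R] [Algebra (ZMod 2) R] [Algebra.FiniteType (ZMod 2) R] [Module R V],
  0 < k → (∀ (r : R) (v : V), r • v = 0 → r = 0 ∨ v = 0) →
  (∀ l ∈ D.L, ∀ (r : R) (v : V), l (r • v) = r • l v) →
  (∀ b, ∀ (r : R) (v : V), D.β b (r • v) = r • D.β b v) →
  (∀ m : Ideal R, m.IsMaximal → ∃ j : ℕ, 0 < j ∧ D.Stb j (mv V m) ∧ Fi (D.pre (mv V m)) AA) → False

/-- **FINAUT.** An elementary abelian 2-group of automorphisms of a finitely generated abelian group is finite.

Proof. Additively: the subring `E` of `End L` generated by the image of `A` is commutative and a finitely generated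
`ℤ`-module, so it is Noetherian and has finitely many minimal primes `𝔮`; in the domain `E / 𝔮` an element with
square `1` is `±1`. So the elements `a` of `ρ A` with `a ≡ 1` modulo all `𝔮` form a subgroup of finite index; for those `ν = a - 1`
is nilpotent and `ν² = -2ν` (from `a² = 1`), so `2^s ν = 0` for some `s` and `ν` is in the torsion subgroup of the finitely generated
abelian group `E`, which is finite. (Or: `L ≅ ℤ^r × T`; or reduce modulo `4`: an involution of `L` that is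
the identity modulo `4L` and on the torsion subgroup is ... .) Any proof is welcome. -/
def S_FINAUT : Prop := ∀ (L : Type) [CommGroup L] [Group.FG L] (A : Type) [CommGroup A],
  (∀ a : A, a * a = 1) → ∀ ρ : A →* MulAut L, (ρ.ker).index ≠ 0

/-- **NIL.** `E` a commutative Noetherian ring, `u : A → Eˣ` a homomorphism from an elementary abelian 2-group. If
its kernel has infinite index then there is `j ≥ 1` such that `{a : u a - 1 ∈ I ^ j}` has finite index in `A` and
`{a : u a - 1 ∈ I ^ (j + 1)}` has infinite index, `I` the nilradical.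

Proof. `E` has finitely many minimal primes `𝔮`; in the domain `E / 𝔮` the square of `u a` is `1`, so `u a ≡ ± 1`. So
`a ↦ (u a mod 𝔮)_𝔮` has finite image and `{a : u a - 1 ∈ I}` has finite index. `I ^ s = 0` for some `s`, so
`{a : u a - 1 ∈ I ^ s}` is the kernel of `u`. Take the first `j` for which the index of `{a : u a - 1 ∈ I ^ (j + 1)}` is infinite. -/
def S_NIL : Prop := ∀ (E A : Type) [CommRing E] [IsNoetherianRing E] [CommGroup A],
  (∀ a : A, a * a = 1) → ∀ u : A →* Eˣ, u.ker.index = 0 →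
  ∃ j : ℕ, 0 < j ∧ ∃ A₁ A₂ : Subgroup A, A₁.index ≠ 0 ∧ A₂.index = 0 ∧
    (∀ a, a ∈ A₁ ↔ (u a : E) - 1 ∈ nilradical E ^ j) ∧
    (∀ a, a ∈ A₂ ↔ (u a : E) - 1 ∈ nilradical E ^ (j + 1))

/-- **MK.** From a finitely generated module over a finitely generated commutative group `Λ` (not necessarily of
exponent two) to a datum: take `V = {w : w + w = 0}` (it is finitely generated over `Λ` by Noetherianity, it contains `α A₀` because
`KK` has characteristic two), `L` = the image of `Λ` in `Au V`. -/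
def S_MK : Prop := ∀ (W Λ : Type) [AddCommGroup W] [CommGroup Λ] [Group.FG Λ]
  (ρ : Λ →* (W ≃ₗ[ℤ] W)) (β : B →* (W ≃ₗ[ℤ] W)) (t : W ≃ₗ[ℤ] W),
  (∀ b, t * β b * t⁻¹ = β (th b)) → (∀ b l, ∃ l', β b * ρ l * (β b)⁻¹ = ρ l') →
  (∀ l, ∃ l', t * ρ l * t⁻¹ = ρ l') → (∀ l, ∃ l', t⁻¹ * ρ l * t = ρ l') →
  (∃ S : Finset W, AddSubgroup.closure {x : W | ∃ l, ∃ s ∈ S, x = ρ l s} = ⊤) →
  ∀ (A₀ : Submodule (ZMod 2) KK) (α : KK → W), A₀ ≤ AA → Fi A₀ AA → (∀ b, ∀ a ∈ A₀, mB b a ∈ A₀) →
  (∀ a, a ∈ A₀ ↔ tA a ∈ A₀) → (∀ a ∈ A₀, ∀ a' ∈ A₀, α (a + a') = α a + α a') →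
  (∀ b, ∀ a ∈ A₀, α (mB b a) = β b (α a)) → (∀ a ∈ A₀, α (tA a) = t (α a)) → (α '' A₀).Infinite →
  ∃ (V : Type) (_ : AddCommGroup V) (_ : Module (ZMod 2) V), Nonempty (Dat 1 V)

/-- The group `AA ⋊ ⟨B, tA⟩` acts on the group `M` by automorphisms, faithfully on `AA`. -/
structure Act (M : Type) [Group M] where
  ia : KK → MulAut M
  β : B →* MulAut M
  t : MulAut M
  iadd : ∀ a ∈ AA, ∀ a' ∈ AA, ia (a + a') = ia a * ia a'
  inj : ∀ a ∈ AA, ia a = 1 → a = 0
  hβ : ∀ b, ∀ a ∈ AA, β b * ia a * (β b)⁻¹ = ia (mB b a)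
  ht : ∀ a ∈ AA, t * ia a * t⁻¹ = ia (tA a)
  tβ : ∀ b, t * β b * t⁻¹ = β (th b)

/-- **GRP.** The group theoretic part: `G = AA ⋊ ⟨B, tA⟩` is finitely generated, `G / AA` is polycyclic.

Proof. Let `H` be the semidirect product `B ⋊ ℤ` with `1 ∈ ℤ` acting as `th`, acting on `AA` by `mB` and `tA`
(`tA * mB b * tA⁻¹ = mB (th b)`), `G = Multiplicative AA ⋊ H`. `G` is generated by `1 ∈ AA`, `(1,0), (0,1) ∈ B` and `t` (S_AAUN). The
normal subgroup `AA` (range of `inl`) is commutative, `G / AA ≅ H`, all subgroups of `H` are finitely generated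
(extension of `ℤ²` by `ℤ`; see `Pool.Graph.R_seed8.Helper294.HallC.Base` and `Pool.Graph.R_seed8.X325.EC.FG` for extension lemmas) and `H` is
solvable (`K = ⊤`). If `f : G → Aut M` is injective, restrict it to get an `Act M`. -/
def S_GRP : Prop := (∀ (M : Type) [Group M] [Group.FG M], derivedSeries M 2 = ⊥ → Act M → False) →
    ¬ (∀ (G : Type) [Group G] [Group.FG G] (A : Subgroup G) [A.Normal],
      (∀ x ∈ A, ∀ y ∈ A, x * y = y * x) →
      (∀ H : Subgroup (G ⧸ A), H.FG) →
      (∃ K : Subgroup (G ⧸ A), K.index ≠ 0 ∧ IsSolvable K) →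
      ∃ (M : Type) (_ : Group M), Group.FG M ∧ derivedSeries M 2 = ⊥ ∧
        ∃ f : G →* MulAut M, Function.Injective f)

end Pool.Agent.H316.EM
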